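import Pool.Agent.N20.AE.Stm2
import Pool.Agent.Y63.KR.Basic
import Pool.Agent.Y624.NV.Trn

/-!
# Project AE: from a normal subgroup to an automorphism
-/

set_option autoImplicit false

open scoped Classical BigOperators

noncomputable section

namespace Pool.Agent.N691.AEAUT

open Pool.Agent.Y63.NV
open Pool.Agent.Y63.KR
open Pool.Agent.Y63.AWC (IsIrreducibleCharacter)
open Pool.Agent.R674.Tw (Fixes NG NE NEbar ng_le IndB)
open Pool.Agent.N20.DI (HasDef Dg kdGe)
open Pool.Agent.N20.AE

theorem isClassFun_conj {F : Type} [Field F] {G : Type} [Group G] (x : G) :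
    IsClassFun (fun y : G => if IsConj x y then (1 : F) else 0) := by
  intro g y
  have h1 : IsConj y (g * y * g⁻¹) := isConj_iff.2 ⟨g, rfl⟩
  have h2 : IsConj x (g * y * g⁻¹) ↔ IsConj x y := ⟨fun h => h.trans h1.symm, fun h => h.trans h1⟩
  simp only [h2]

section iso

set_option linter.unusedSectionVars false

variable {F : Type} [Field F] {G G' : Type} [Group G] [Group G'] (j : G ≃* G')

theorem cf_down {f : G' → F} (hf : IsClassFun f) : IsClassFun (fun x : G => f (j x)) := by
  intro g x
  show f (j (g * x * g⁻¹)) = f (j x)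
  rw [map_mul, map_mul, map_inv]
  exact hf _ _

theorem conv_down (f g : G' → F) :
    (fun x : G => conv f g (j x)) = conv (fun x : G => f (j x)) (fun x : G => g (j x)) := by
  funext x
  unfold conv
  rw [← finsum_comp_equiv j.toEquiv]
  refine finsum_congr fun y => ?_
  show f (j y) * g ((j y)⁻¹ * j x) = f (j y) * g (j (y⁻¹ * x))
  rw [map_mul, map_inv]

theorem tb_block {B : (G → F) → F} (hB : IsBlock B) :
    IsBlock (fun f : G' → F => B (fun x => f (j x))) where
  add f g hf hg := hB.add _ _ (cf_down j hf) (cf_down j hg)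
  smul a f hf := hB.smul a _ (cf_down j hf)
  one := by
    refine (congrArg B ?_).trans hB.one
    funext x
    by_cases hx : x = 1
    · rw [hx, map_one, Pi.single_eq_same, Pi.single_eq_same]
    · rw [Pi.single_eq_of_ne hx, Pi.single_eq_of_ne]
      intro h
      apply hx
      apply j.injective
      rw [h, map_one]
  mul f g hf hg := by
    rw [conv_down]
    exact hB.mul _ _ (cf_down j hf) (cf_down j hg)

theorem cv_iso (B : (G → F) → F) (x : G) :
    classValue (fun f : G' → F => B (fun x => f (j x))) (j x) = classValue B x := by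
  show B (fun y => if IsConj (j x) (j y) then (1 : F) else 0) =
    B (fun y => if IsConj x y then (1 : F) else 0)
  congr 1
  funext y
  have h1 : IsConj (j x) (j y) ↔ IsConj x y := by
    constructor
    · intro h2
      obtain ⟨u, hu⟩ := isConj_iff.1 h2
      refine isConj_iff.2 ⟨j.symm u, ?_⟩
      apply j.injective
      rw [map_mul, map_mul, map_inv, j.apply_symm_apply]
      exact hu
    · intro h2
      obtain ⟨u, hu⟩ := isConj_iff.1 h2
      refine isConj_iff.2 ⟨j u, ?_⟩
      rw [← hu, map_mul, map_mul, map_inv]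
  simp only [h1]

theorem cent_map (x : G) : (Subgroup.centralizer {x}).map j.toMonoidHom =
    Subgroup.centralizer {j x} := by
  ext y
  rw [Subgroup.mem_map, Subgroup.mem_centralizer_iff]
  constructor
  · rintro ⟨c, hc, rfl⟩ a ha
    rw [Set.mem_singleton_iff.1 ha]
    have h2 := Subgroup.mem_centralizer_iff.1 hc x rfl
    show j x * j c = j c * j x
    rw [← map_mul, h2, map_mul]
  · intro h2
    have h3 := h2 (j x) rfl
    refine ⟨j.symm y, Subgroup.mem_centralizer_iff.2 ?_, j.apply_symm_apply y⟩
    intro a ha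
    rw [Set.mem_singleton_iff.1 ha]
    apply j.injective
    rw [map_mul, map_mul, j.apply_symm_apply]
    exact h3

theorem cent_card (x : G) : Nat.card ↥(Subgroup.centralizer {j x}) =
    Nat.card ↥(Subgroup.centralizer {x}) := by
  rw [← cent_map]
  exact Subgroup.card_map_of_injective (f := j.toMonoidHom) j.injective

theorem defect_iso {p : ℕ} {B : (G → F) → F} {D : Subgroup G} (h : IsDefectGroup p B D) :
    IsDefectGroup p (fun f : G' → F => B (fun x => f (j x))) (D.map j.toMonoidHom) := by
  obtain ⟨x, h1, h2, h3, h4, h5⟩ := h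
  refine ⟨j x, ?_, ?_, ?_, IsPGroup.map h4 _, ?_⟩
  · rw [cv_iso]; exact h1
  · intro y hy
    obtain ⟨y, rfl⟩ := j.surjective y
    rw [cv_iso] at hy
    rw [cent_card, cent_card]
    exact h2 y hy
  · rw [← cent_map]
    exact Subgroup.map_mono h3
  · rw [cent_card, ← h5,
      Subgroup.card_map_of_injective (K := D) (f := j.toMonoidHom) j.injective]

end iso

section abs

variable {F : Type} [Field F] {G : Type} [Group G] {E : Type} [Group E]

/-- the general translation of the counts -/
theorem count (p : ℕ) (red : integralClosure ℤ ℂ →+* F) (d : ℕ) (B : (G → F) → F)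
    (i : G →* E) (hi : Function.Injective i) [i.range.Normal] (α : MulAut G) (e : E)
    (he : ∀ x, e * i x * e⁻¹ = i (α x)) (σ : Set (Subgroup E)) (heσ : e ∈ chainStabilizer σ)
    {M : Type} [Group M] (a : M →* G) (t : M ≃* NG i.range σ) (ht : ∀ x, (t x : E) = i (a x)) :
    kdGe p red i.range (fun f : i.range → F => B (fun x => f (MonoidHom.ofInjective hi x))) d
      (Subgroup.zpowers (QuotientGroup.mk' i.range e)) σ =
    Nat.card {χ : M → ℂ // IsIrreducibleCharacter χ ∧ HasDef p d χ ∧
      (∀ f : G → F, IsClassFun f → centralValue red χ (fun x => f (a x)) = B f) ∧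
      ∀ x y : M, a y = α (a x) → χ y = χ x} := by
  unfold kdGe
  refine Nat.card_congr ((Equiv.arrowCongr t.symm.toEquiv (Equiv.refl ℂ)).subtypeEquiv
    fun χ => ?_)
  have h0 : (Equiv.arrowCongr t.symm.toEquiv (Equiv.refl ℂ)) χ = fun x => χ (t x) := rfl
  rw [h0]
  have hirr : IsIrreducibleCharacter χ ↔ IsIrreducibleCharacter (fun x => χ (t x)) := by
    refine ⟨fun h => Pool.Agent.Y624.NV.irr_comp t h, fun h => ?_⟩
    have h1 := Pool.Agent.Y624.NV.irr_comp t.symm h
    have h2 : (fun x => χ (t (t.symm x))) = χ := by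
      funext x
      rw [t.apply_symm_apply]
    rw [h2] at h1
    exact h1
  have hdef : HasDef p d χ ↔ HasDef p d (fun x => χ (t x)) := by
    have h9 : (fun x => χ (t x)) 1 = χ 1 := congrArg χ (map_one t)
    unfold HasDef Dg
    rw [h9, Nat.card_congr t.toEquiv]
  constructor
  · rintro ⟨h1, h2, h3, h4⟩
    refine ⟨hirr.1 h1, hdef.1 h2, ?_, ?_⟩
    · intro f hf
      have hf' : IsClassFun (fun y : i.range => f ((MonoidHom.ofInjective hi).symm y)) :=
        cf_down (MonoidHom.ofInjective hi).symm hf
      have h5 := h4 _ hf'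
      have hf2 : IsClassFun (fun x : NG i.range σ =>
          f ((MonoidHom.ofInjective hi).symm ⟨x, ng_le i.range σ x.2⟩)) := by
        intro g x
        exact hf' ⟨g, ng_le i.range σ g.2⟩ ⟨x, ng_le i.range σ x.2⟩
      have h6 := Pool.Agent.Y624.NV.centralValue_comp red t h1 hf2
      have h7 : (fun x : M => f ((MonoidHom.ofInjective hi).symm
          ⟨(t x : E), ng_le i.range σ (t x).2⟩)) = fun x => f (a x) := by
        funext x
        congr 1
        rw [MulEquiv.symm_apply_eq]
        exact Subtype.ext (ht x)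
      rw [h7] at h6
      rw [h6]
      refine h5.trans ?_
      show B (fun x => f ((MonoidHom.ofInjective hi).symm (MonoidHom.ofInjective hi x))) = B f
      congr 1
      funext x
      rw [MulEquiv.symm_apply_apply]
    · intro x y hxy
      have h5 : QuotientGroup.mk' i.range e ∈ NEbar i.range σ χ :=
        h3 (Subgroup.mem_zpowers _)
      obtain ⟨g, ⟨hg1, hg2⟩, hg3⟩ := h5
      have hw : g * e⁻¹ ∈ i.range := by
        have h6 : (QuotientGroup.mk' i.range) (g * e⁻¹) = 1 := by
          rw [map_mul, map_inv, hg3, mul_inv_cancel]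
        exact (QuotientGroup.eq_one_iff _).1 h6
      have hw2 : g * e⁻¹ ∈ NG i.range σ :=
        Subgroup.mem_inf.2 ⟨hw, Subgroup.mul_mem _ hg1 (Subgroup.inv_mem _ heσ)⟩
      have h7 : (t y : E) = e * (t x : E) * e⁻¹ := by
        rw [ht, ht, hxy, he]
      have h8 := hg2 (t x) (⟨g * e⁻¹, hw2⟩ * t y * ⟨g * e⁻¹, hw2⟩⁻¹) (by
        show g * e⁻¹ * (t y : E) * (g * e⁻¹)⁻¹ = g * (t x : E) * g⁻¹
        rw [h7]
        group)
      rw [Pool.Agent.Y624.NV.irr_class h1] at h8
      exact h8
  · rintro ⟨h1, h2, h3, h4⟩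
    refine ⟨hirr.2 h1, hdef.2 h2, ?_, ?_⟩
    · rw [Subgroup.zpowers_le]
      refine ⟨e, ⟨heσ, ?_⟩, rfl⟩
      intro n n' hn
      obtain ⟨x, rfl⟩ := t.surjective n
      obtain ⟨y, rfl⟩ := t.surjective n'
      refine h4 x y (hi ?_)
      rw [← ht, hn, ht, he]
    · intro f' hf'
      have hf2 : IsClassFun (fun x : NG i.range σ => f' ⟨x, ng_le i.range σ x.2⟩) := by
        intro g x
        exact hf' ⟨g, ng_le i.range σ g.2⟩ ⟨x, ng_le i.range σ x.2⟩
      have h5 := h3 _ (cf_down (MonoidHom.ofInjective hi) hf')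
      have h6 := Pool.Agent.Y624.NV.centralValue_comp red t (hirr.2 h1) hf2
      have h7 : (fun x : M => f' ⟨(t x : E), ng_le i.range σ (t x).2⟩) =
          fun x => f' (MonoidHom.ofInjective hi (a x)) := by
        funext x
        congr 1
        exact Subtype.ext (ht x)
      rw [h7] at h6
      rw [← h6]
      exact h5

theorem abs_main (h : S_EQ) (p : ℕ) [Fact p.Prime] [IsAlgClosed F] [CharP F p]
    (red : integralClosure ℤ ℂ →+* F) [Finite G] [Finite E] (α : MulAut G) (B : (G → F) → F)
    (D : Subgroup G) (hB : IsBlock B) (hD : IsDefectGroup p B D)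
    (hα : D.map α.toMonoidHom = D) (δ : ℕ) (hδ : Nat.card D = p ^ δ)
    (hAM : ∀ (K : Type) [Group K] [Finite K], AMc p red K)
    (i : G →* E) (hi : Function.Injective i) [i.range.Normal] (e : E)
    (he : ∀ x, e * i x * e⁻¹ = i (α x)) :
    fixB p red δ B α = fixI p red δ D B α := by
  have hconj : ∀ x : G, conjSub (i x) (D.map i) = (conjSub x D).map i := by
    intro x
    unfold conjSub
    rw [Subgroup.map_map, Subgroup.map_map]
    congr 1
    ext y
    show i x * i y * (i x)⁻¹ = i (x * y * x⁻¹)
    rw [map_mul, map_mul, map_inv]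
  have heD : e ∈ Subgroup.normalizer ((D.map i : Subgroup E) : Set E) := by
    rw [← conjSub_eq_iff]
    have h1 : conjSub e (D.map i) = (D.map α.toMonoidHom).map i := by
      unfold conjSub
      rw [Subgroup.map_map, Subgroup.map_map]
      congr 1
      ext y
      exact he y
    rw [h1, hα]
  have hsub : (D.map i).subgroupOf i.range =
      D.map (MonoidHom.ofInjective hi).toMonoidHom := by
    ext y
    rw [Subgroup.mem_subgroupOf]
    constructor
    · rintro ⟨x, hx, hxy⟩
      exact ⟨x, hx, Subtype.ext hxy⟩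
    · rintro ⟨x, hx, hxy⟩
      exact ⟨x, hx, congrArg Subtype.val hxy⟩
  have hmain := h p F red E i.range (Subgroup.zpowers (QuotientGroup.mk' i.range e))
    inferInstance (fun f : i.range → F => B (fun x => f (MonoidHom.ofInjective hi x)))
    (D.map i) (Subgroup.map_le_range i D) (tb_block (MonoidHom.ofInjective hi) hB)
    (by rw [hsub]; exact defect_iso (MonoidHom.ofInjective hi) hD) δ
    (by rw [Subgroup.card_map_of_injective hi]; exact hδ)
    (fun U _ K _ => ⟨hAM K, fun N _ => hAM N⟩)
    (by
      intro g hg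
      obtain ⟨k, hk⟩ := Subgroup.mem_zpowers_iff.1 (Subgroup.mem_comap.1 hg)
      refine ⟨g * (e ^ k)⁻¹, ?_, ?_⟩
      · have h6 : (QuotientGroup.mk' i.range) (g * (e ^ k)⁻¹) = 1 := by
          rw [map_mul, map_inv, map_zpow, hk, mul_inv_cancel]
        exact (QuotientGroup.eq_one_iff _).1 h6
      · have h7 : (g * (e ^ k)⁻¹)⁻¹ * g = e ^ k := by group
        rw [h7]
        exact Subgroup.zpow_mem _ heD k)
  have hc0 : chainStabilizer (∅ : Set (Subgroup E)) = ⊤ := by
    unfold chainStabilizer
    simp
  have hc1 : chainStabilizer ({D.map i} : Set (Subgroup E)) =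
      Subgroup.normalizer ((D.map i : Subgroup E) : Set E) := by
    unfold chainStabilizer
    simp
  have hN0 : i.range = NG i.range ∅ := by
    unfold NG
    rw [hc0, inf_top_eq]
  have hN1 : (Subgroup.normalizer (D : Set G)).map i = NG i.range {D.map i} := by
    unfold NG
    rw [hc1]
    ext y
    rw [Subgroup.mem_inf]
    constructor
    · rintro ⟨x, hx, rfl⟩
      refine ⟨⟨x, rfl⟩, ?_⟩
      have hx' : x ∈ Subgroup.normalizer (D : Set G) := hx
      rw [← conjSub_eq_iff] at hx' ⊢
      rw [hconj, hx']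
    · rintro ⟨⟨x, rfl⟩, hy⟩
      refine ⟨x, ?_, rfl⟩
      show x ∈ Subgroup.normalizer (D : Set G)
      rw [← conjSub_eq_iff] at hy ⊢
      rw [hconj] at hy
      exact Subgroup.map_injective hi hy
  have e0 := count p red δ B i hi α e he ∅ (by rw [hc0]; exact Subgroup.mem_top _)
    (MonoidHom.id G) ((MonoidHom.ofInjective hi).trans (MulEquiv.subgroupCongr hN0))
    (fun x => rfl)
  have e1 := count p red δ B i hi α e he {D.map i} (by rw [hc1]; exact heD)
    (Subgroup.normalizer (D : Set G)).subtype
    (((Subgroup.normalizer (D : Set G)).equivMapOfInjective i hi).trans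
      (MulEquiv.subgroupCongr hN1)) (fun x => rfl)
  rw [hmain, e1] at e0
  have e2 : fixB p red δ B α = Nat.card {χ : G → ℂ // IsIrreducibleCharacter χ ∧ HasDef p δ χ ∧
      (∀ f : G → F, IsClassFun f →
        centralValue red χ (fun x => f ((MonoidHom.id G) x)) = B f) ∧
      ∀ x y : G, (MonoidHom.id G) y = α ((MonoidHom.id G) x) → χ y = χ x} := by
    unfold fixB
    refine Nat.card_congr (Equiv.subtypeEquivRight fun χ => ?_)
    constructor
    · rintro ⟨h1, h2, h3, h4⟩
      refine ⟨h1, h2, h3, ?_⟩
      intro x y hxy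
      have h5 : y = α x := hxy
      rw [h5]
      exact h4 x
    · rintro ⟨h1, h2, h3, h4⟩
      exact ⟨h1, h2, h3, fun x => h4 x (α x) rfl⟩
  rw [e2, ← e0]
  rfl

end abs

theorem AUT (h : S_EQ) : S_AUT := by
  intro p _ F _ _ _ red G _ _ α B D hB hD hα δ hδ hAM
  have hfin : Finite (MulAut G) :=
    Finite.of_injective (fun f : MulAut G => (f : G → G)) DFunLike.coe_injective
  have hE : Finite (SemidirectProduct G (MulAut G) (MonoidHom.id (MulAut G))) :=
    Finite.of_equiv _ SemidirectProduct.equivProd.symm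
  have hn : (SemidirectProduct.inl : G →*
      SemidirectProduct G (MulAut G) (MonoidHom.id (MulAut G))).range.Normal := by
    rw [SemidirectProduct.range_inl_eq_ker_rightHom]
    infer_instance
  refine abs_main (E := SemidirectProduct G (MulAut G) (MonoidHom.id (MulAut G))) h p red α B D
    hB hD hα δ hδ hAM SemidirectProduct.inl
    SemidirectProduct.inl_injective (SemidirectProduct.inr α) ?_
  intro x
  rw [← map_inv, ← SemidirectProduct.inl_aut]
  rfl

end Pool.Agent.N691.AEAUT
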