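import Pool.Agent.N20.AE.Stm
import Pool.Agent.Y63.KR.Basic

/-!
# Project AE: covering blocks (CV) and the Frattini argument (FR)
-/

set_option autoImplicit false

open scoped Classical BigOperators

noncomputable section

namespace Pool.Agent.N691.AECV

open Pool.Agent.Y63.NV
open Pool.Agent.Y63.KR
open Pool.Agent.N20.AE

theorem isClassFun_conj {F : Type} [Field F] {G : Type} [Group G] (x : G) :
    IsClassFun (fun y : G => if IsConj x y then (1 : F) else 0) := by
  intro g y
  have h1 : IsConj y (g * y * g⁻¹) := isConj_iff.2 ⟨g, rfl⟩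
  have h2 : IsConj x (g * y * g⁻¹) ↔ IsConj x y := ⟨fun h => h.trans h1.symm, fun h => h.trans h1⟩
  simp only [h2]

theorem isClassFun_add {F : Type} [Field F] {G : Type} [Group G] {f f' : G → F}
    (h : IsClassFun f) (h' : IsClassFun f') : IsClassFun (f + f') := fun g x => by
  rw [Pi.add_apply, Pi.add_apply, h, h']

theorem isClassFun_smul {F : Type} [Field F] {G : Type} [Group G] {f : G → F} (a : F)
    (h : IsClassFun f) : IsClassFun (a • f) := fun g x => by
  rw [Pi.smul_apply, Pi.smul_apply, h]

/-- if `b z` does not vanish then some class contributes -/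
theorem blk_exists {F : Type} [Field F] {K : Type} [Group K] [Finite K] {b : (K → F) → F}
    (hb : IsBlock b) (z : K → F) (hz : IsClassFun z) (hbz : b z ≠ 0) :
    ∃ x, z x ≠ 0 ∧ classValue b x ≠ 0 := by
  by_contra hcon
  have hcon' : ∀ x, z x ≠ 0 → classValue b x = 0 := by
    intro x hx
    by_contra h
    exact hcon ⟨x, hx, h⟩
  have := Fintype.ofFinite (ConjClasses K)
  have hzs : z = ∑ C : ConjClasses K,
      (z C.out) • (fun y : K => if IsConj C.out y then (1 : F) else 0) := by
    funext y
    rw [Finset.sum_apply, Finset.sum_eq_single (ConjClasses.mk y)]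
    · have h1 : IsConj (Quotient.out (ConjClasses.mk y)) y :=
        ConjClasses.mk_eq_mk_iff_isConj.1 (Quotient.out_eq (ConjClasses.mk y))
      rw [Pi.smul_apply, if_pos h1, smul_eq_mul, mul_one]
      obtain ⟨c, hc⟩ := isConj_iff.1 h1
      have h3 := hz c (Quotient.out (ConjClasses.mk y))
      rw [hc] at h3
      exact h3
    · intro C _ hC
      have h1 : ¬ IsConj (Quotient.out C) y := by
        intro h2
        apply hC
        rw [← ConjClasses.mk_eq_mk_iff_isConj.2 h2]
        exact (Quotient.out_eq C).symm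
      rw [Pi.smul_apply, if_neg h1, smul_zero]
    · intro h
      exact absurd (Finset.mem_univ _) h
  have h0 : b 0 = 0 := by
    have h1 := hb.smul 0 0 (fun _ _ => rfl)
    rwa [smul_zero, zero_mul] at h1
  have hs : IsClassFun (∑ C : ConjClasses K,
      (z C.out) • (fun y : K => if IsConj C.out y then (1 : F) else 0)) ∧
      b (∑ C : ConjClasses K,
      (z C.out) • (fun y : K => if IsConj C.out y then (1 : F) else 0)) = 0 := by
    refine Finset.sum_induction _ (fun g : K → F => IsClassFun g ∧ b g = 0) ?_ ?_ ?_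
    · rintro f f' ⟨hf, hf0⟩ ⟨hf', hf0'⟩
      refine ⟨isClassFun_add hf hf', ?_⟩
      rw [hb.add f f' hf hf', hf0, hf0', add_zero]
    · exact ⟨fun _ _ => rfl, h0⟩
    · intro C _
      refine ⟨isClassFun_smul _ (isClassFun_conj _), ?_⟩
      rw [hb.smul _ _ (isClassFun_conj _)]
      by_cases hzC : z (Quotient.out C) = 0
      · rw [hzC, zero_mul]
      · have h1 := hcon' _ hzC
        unfold classValue at h1
        rw [h1, mul_zero]
  rw [← hzs] at hs
  exact hbz hs.2

theorem CV (h : S_MM) : S_CV := by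
  intro p _ F _ _ _ G K _ _ _ _ i B D z hS b hb hbz Q hQ
  obtain ⟨x, hzx, hcx⟩ := blk_exists hb z hS.cl (by rw [hbz]; exact one_ne_zero)
  have hx : x ∈ i.range := by
    by_contra hx
    exact hzx (hS.supp x hx)
  obtain ⟨x', rfl⟩ := hx
  obtain ⟨-, hmm, -⟩ := h p F K b hb
  obtain ⟨k, hk⟩ := hmm Q hQ (i x') hcx
  have hQp : IsPGroup p Q := hQ.choose_spec.2.2.2.1
  have hSp : IsPGroup p ((conjSub k Q).comap i) :=
    IsPGroup.comap_of_injective (IsPGroup.map hQp _) i hS.inj
  have hSc : (conjSub k Q).comap i ≤ Subgroup.centralizer {x'} := by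
    intro s hs
    rw [Subgroup.mem_centralizer_iff]
    intro y hy
    rw [Set.mem_singleton_iff.1 hy]
    have h1 := Subgroup.mem_centralizer_iff.1 (hk (Subgroup.mem_comap.1 hs)) (i x') rfl
    apply hS.inj
    rw [map_mul, map_mul]
    exact h1
  obtain ⟨g, hg⟩ := hS.ideal x' hzx _ hSp hSc
  have h1 : conjSub (i g * k) Q ⊓ i.range ≤ D.map i := by
    rintro y ⟨hy, w, rfl⟩
    refine ⟨w, hg ?_, rfl⟩
    rw [mem_conjSub, Subgroup.mem_comap, mem_conjSub, map_mul, map_mul, map_inv]
    have h2 := mem_conjSub.1 hy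
    have h3 : k⁻¹ * ((i g)⁻¹ * i w * i g) * k = (i g * k)⁻¹ * i w * (i g * k) := by group
    rw [h3]
    exact h2
  refine ⟨⟨i g * k, h1⟩, ?_⟩
  have hN : i.range.Normal := hS.normal
  have hc1 : Nat.card ↥(conjSub (i g * k) Q) = Nat.card Q :=
    Subgroup.card_map_of_injective (MulAut.conj (i g * k)).injective
  have hc2 := Subgroup.relIndex_mul_relIndex ⊥ (conjSub (i g * k) Q ⊓ i.range)
    (conjSub (i g * k) Q) bot_le inf_le_left
  rw [Subgroup.relIndex_bot_left, Subgroup.relIndex_bot_left, Subgroup.inf_relIndex_left, hc1] at hc2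
  rw [← hc2]
  have hd1 : Nat.card ↥(conjSub (i g * k) Q ⊓ i.range) ∣ Nat.card D := by
    have h2 := Subgroup.card_dvd_of_le h1
    rwa [Subgroup.card_map_of_injective hS.inj] at h2
  refine Nat.mul_dvd_mul hd1 ?_
  have hd2 : i.range.relIndex (conjSub (i g * k) Q) ∣ i.range.index :=
    Subgroup.relIndex_dvd_index_of_normal _ _
  have hd3 : i.range.relIndex (conjSub (i g * k) Q) ∣ Nat.card Q := by
    rw [← hc1]
    exact Subgroup.relIndex_dvd_card _ _
  obtain ⟨n, hn⟩ := hQp.exists_card_eq
  rw [hn] at hd3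
  obtain ⟨m, -, hm⟩ := (Nat.dvd_prime_pow (Fact.out : p.Prime)).1 hd3
  rw [hm] at hd2 ⊢
  have hi0 : i.range.index ≠ 0 := Subgroup.index_ne_zero_of_finite
  exact pow_dvd_pow p (((Fact.out : p.Prime).pow_dvd_iff_le_factorization hi0).1 hd2)

theorem FR (h : S_MM) : S_FR := by
  intro p _ F _ _ _ G K _ _ _ _ i B D z hS k
  have hN : i.range.Normal := hS.normal
  let α : G ≃* G := (MonoidHom.ofInjective hS.inj).trans
    ((MulAut.conjNormal k : i.range ≃* i.range).trans (MonoidHom.ofInjective hS.inj).symm)
  have hα : ∀ x, i (α x) = k * i x * k⁻¹ := by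
    intro x
    have h1 : MonoidHom.ofInjective hS.inj (α x) =
        (MulAut.conjNormal k : i.range ≃* i.range) (MonoidHom.ofInjective hS.inj x) :=
      (MonoidHom.ofInjective hS.inj).apply_symm_apply _
    have h2 := congrArg Subtype.val h1
    rw [MulAut.conjNormal_apply] at h2
    exact h2
  have hcv : ∀ x, classValue B (α x) = classValue B x := by
    intro x
    unfold classValue
    refine hS.inv k _ _ (isClassFun_conj x) ?_
    intro a c hac
    have hc : c = α a := hS.inj (by rw [hα]; exact hac)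
    have h1 : IsConj (α x) c ↔ IsConj x a := by
      rw [hc]
      constructor
      · intro h2
        obtain ⟨u, hu⟩ := isConj_iff.1 h2
        refine isConj_iff.2 ⟨α.symm u, ?_⟩
        apply α.injective
        rw [map_mul, map_mul, map_inv, α.apply_symm_apply]
        exact hu
      · intro h2
        obtain ⟨u, hu⟩ := isConj_iff.1 h2
        refine isConj_iff.2 ⟨α u, ?_⟩
        rw [← hu, map_mul, map_mul, map_inv]
    simp only [h1]
  have hcent : ∀ x, (Subgroup.centralizer {x}).map α.toMonoidHom =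
      Subgroup.centralizer {α x} := by
    intro x
    ext y
    rw [Subgroup.mem_map, Subgroup.mem_centralizer_iff]
    constructor
    · rintro ⟨c, hc, rfl⟩ a ha
      rw [Set.mem_singleton_iff.1 ha]
      have h2 := Subgroup.mem_centralizer_iff.1 hc x rfl
      show α x * α c = α c * α x
      rw [← map_mul, h2, map_mul]
    · intro h2
      have h3 := h2 (α x) rfl
      refine ⟨α.symm y, Subgroup.mem_centralizer_iff.2 ?_, α.apply_symm_apply y⟩
      intro a ha
      rw [Set.mem_singleton_iff.1 ha]
      apply α.injective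
      rw [map_mul, map_mul, α.apply_symm_apply]
      exact h3
  have hcard : ∀ x, Nat.card ↥(Subgroup.centralizer {α x}) =
      Nat.card ↥(Subgroup.centralizer {x}) := by
    intro x
    rw [← hcent]
    exact Subgroup.card_map_of_injective (f := α.toMonoidHom) α.injective
  have hdef : IsDefectGroup p B (D.map α.toMonoidHom) := by
    obtain ⟨x, h1, h2, h3, h4, h5⟩ := hS.defect
    refine ⟨α x, ?_, ?_, ?_, IsPGroup.map h4 _, ?_⟩
    · rw [hcv]; exact h1
    · intro y hy
      rw [hcard]
      exact h2 y hy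
    · rw [← hcent]
      exact Subgroup.map_mono h3
    · rw [hcard, ← h5, Subgroup.card_map_of_injective (K := D) (f := α.toMonoidHom) α.injective]
  obtain ⟨g, hg⟩ := ((h p F G B hS.block).2.2 D hS.defect _).1 hdef
  refine ⟨g, ?_⟩
  rw [← conjSub_eq_iff]
  have e1 : conjSub k (D.map i) = (D.map α.toMonoidHom).map i := by
    unfold conjSub
    rw [Subgroup.map_map, Subgroup.map_map]
    congr 1
    ext x
    show k * i x * k⁻¹ = i (α x)
    rw [hα]
  have e2 : conjSub (i g) (D.map i) = (conjSub g D).map i := by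
    unfold conjSub
    rw [Subgroup.map_map, Subgroup.map_map]
    congr 1
    ext x
    show i g * i x * (i g)⁻¹ = i (g * x * g⁻¹)
    rw [map_mul, map_mul, map_inv]
  rw [conjSub_mul, e1, hg, ← e2, ← conjSub_mul, inv_mul_cancel, conjSub_one]

end Pool.Agent.N691.AECV
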