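import Pool.Agent.N709.UM.Stm

set_option autoImplicit false

/-!
# Project UM (helper709), leaf PRD: products of minimal groups are minimal
-/

open Filter Topology

universe u v w

namespace Pool.Agent.N691.UM

open Pool.Agent.N709.UM

section core

variable {I : Type v} {G : I → Type u} [∀ i, Group (G i)]

open Classical in
/-- commutators with elements of a factor -/
lemma comm_single (i : I) (y : ∀ i, G i) (c : G i) :
    (Pi.mulSingle i (y i * c * (y i)⁻¹ * c⁻¹) : ∀ i, G i) =
      y * Pi.mulSingle i c * y⁻¹ * (Pi.mulSingle i c)⁻¹ := by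
  funext j
  by_cases h : j = i
  · subst h
    simp
  · simp [Pi.mulSingle_eq_of_ne h]

variable [∀ i, TopologicalSpace (G i)] [∀ i, IsTopologicalGroup (G i)]
  {P' : Type w} [Group P'] [TopologicalSpace P'] [IsTopologicalGroup P'] [T2Space P']

open Classical in
/-- the topology of a factor is induced -/
lemma nhds_factor (hM : ∀ i, Pool.Agent.N709.UM.Min (G i)) (e : (∀ i, G i) ≃* P') (he : Continuous e) (i : I)
    (U : Set (G i)) (hU : U ∈ 𝓝 (1 : G i)) :
    ∃ V ∈ 𝓝 (1 : P'), ∀ g : G i, e (Pi.mulSingle i g) ∈ V → g ∈ U := by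
  let φ : G i →* P' := e.toMonoidHom.comp (MonoidHom.mulSingle G i)
  have hφ : ∀ g, φ g = e (Pi.mulSingle i g) := fun g => rfl
  have hφc : Continuous φ := by
    have h1 : Continuous fun g : G i => (Pi.mulSingle i g : ∀ i, G i) := continuous_mulSingle i
    exact he.comp h1
  have hφi : Function.Injective φ := by
    intro a b hab
    rw [hφ, hφ] at hab
    exact Pi.mulSingle_injective i (e.injective hab)
  have hg : @IsTopologicalGroup (G i) (TopologicalSpace.induced φ inferInstance) _ :=
    topologicalGroup_induced φ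
  have ht : @T2Space (G i) (TopologicalSpace.induced φ inferInstance) := by
    let _ : TopologicalSpace (G i) := TopologicalSpace.induced φ inferInstance
    exact T2Space.of_injective_continuous hφi continuous_induced_dom
  have heq := hM i (TopologicalSpace.induced φ inferInstance) hg ht
    (continuous_iff_le_induced.1 hφc)
  have hn : 𝓝 (1 : G i) = Filter.comap φ (𝓝 (φ 1)) := by
    rw [← heq]
    exact nhds_induced φ 1
  rw [hn, map_one, Filter.mem_comap] at hU
  obtain ⟨V, hV, hVU⟩ := hU
  exact ⟨V, hV, fun g hg => hVU hg⟩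

open Classical in
/-- the components of an ultrafilter which converges to `1` are asymptotically central -/
lemma ac_factor (hM : ∀ i, Pool.Agent.N709.UM.Min (G i)) (e : (∀ i, G i) ≃* P') (he : Continuous e) (i : I)
    (W : Ultrafilter P') (hW : (W : Filter P') ≤ 𝓝 1) :
    AC (W.map fun x => e.symm x i) := by
  intro C hC U hU
  obtain ⟨V, hV, hVU⟩ := nhds_factor hM e he i U hU
  have hs : Continuous fun g : G i => e (Pi.mulSingle i g : ∀ i, G i) :=
    he.comp (continuous_mulSingle i)
  have key : ∀ (x : P') (c : G i), e (Pi.mulSingle i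
      (e.symm x i * c * (e.symm x i)⁻¹ * c⁻¹)) =
      x * e (Pi.mulSingle i c) * x⁻¹ * (e (Pi.mulSingle i c))⁻¹ := by
    intro x c
    rw [comm_single i (e.symm x) c, map_mul, map_mul, map_mul, map_inv, map_inv,
      MulEquiv.apply_symm_apply]
  have h1 : ∀ᶠ x in 𝓝 (1 : P'), ∀ c ∈ C,
      x * e (Pi.mulSingle i c) * x⁻¹ * (e (Pi.mulSingle i c))⁻¹ ∈ V := by
    apply hC.eventually_forall_of_forall_eventually
    intro c _
    have h2 : ContinuousAt (fun q : P' × G i =>
        q.1 * e (Pi.mulSingle i q.2) * q.1⁻¹ * (e (Pi.mulSingle i q.2))⁻¹) ((1 : P'), c) := by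
      have h3 : Continuous fun q : P' × G i => e (Pi.mulSingle i q.2 : ∀ i, G i) :=
        hs.comp continuous_snd
      exact (((continuous_fst.mul h3).mul continuous_fst.inv).mul h3.inv).continuousAt
    have h4 := h2.eventually (show ∀ᶠ y in 𝓝 ((1 : P') * e (Pi.mulSingle i c) * (1 : P')⁻¹ *
      (e (Pi.mulSingle i c))⁻¹), y ∈ V by
        rw [one_mul, inv_one, mul_one, mul_inv_cancel]
        exact hV)
    exact h4
  have h5 : ∀ᶠ x in 𝓝 (1 : P'), ∀ c ∈ C,
      x⁻¹ * e (Pi.mulSingle i c) * (x⁻¹)⁻¹ * (e (Pi.mulSingle i c))⁻¹ ∈ V := by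
    have h6 : Tendsto (fun x : P' => x⁻¹) (𝓝 1) (𝓝 1) := by
      have := (continuous_inv : Continuous fun x : P' => x⁻¹).tendsto 1
      rwa [inv_one] at this
    exact h6.eventually h1
  have h7 : ∀ᶠ x in (W : Filter P'), ∀ c ∈ C,
      e.symm x i * c * (e.symm x i)⁻¹ * c⁻¹ ∈ U ∧ (e.symm x i)⁻¹ * c * e.symm x i * c⁻¹ ∈ U := by
    filter_upwards [hW h1, hW h5] with x hx hx' c hc
    refine ⟨hVU _ (by rw [key]; exact hx c hc), hVU _ ?_⟩
    have h8 := key x⁻¹ c
    rw [map_inv, Pi.inv_apply, inv_inv] at h8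
    rw [h8]
    exact hx' c hc
  rw [Ultrafilter.mem_map]
  exact h7

/-- the inverse is continuous -/
theorem core (hM : ∀ i, Pool.Agent.N709.UM.Min (G i)) (hS : ∀ i, Pool.Agent.N709.UM.Star (G i)) (e : (∀ i, G i) ≃* P')
    (he : Continuous e) : Continuous e.symm := by
  rw [continuous_pi_iff]
  intro i
  have hcont : Continuous ((Pi.evalMonoidHom G i).comp e.symm.toMonoidHom) := by
    apply continuous_of_continuousAt_one
    rw [ContinuousAt, map_one, Filter.tendsto_iff_ultrafilter]
    intro W hW
    have h1 : ∀ j, ∃ z : G j, ((W.map fun x => e.symm x j : Ultrafilter (G j)) :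
        Filter (G j)) ≤ 𝓝 z := fun j => hS j _ (ac_factor hM e he j W hW)
    choose z hz using h1
    have h2 : Tendsto (fun x => e.symm x) (W : Filter P') (𝓝 z) := by
      rw [tendsto_pi_nhds]
      intro j
      exact hz j
    have h3 : Tendsto (fun x => e (e.symm x)) (W : Filter P') (𝓝 (e z)) :=
      (he.tendsto z).comp h2
    simp only [MulEquiv.apply_symm_apply] at h3
    have h4 : e z = 1 := tendsto_nhds_unique h3 hW
    have h5 : z = 1 := by
      apply e.injective
      rw [h4, map_one]
    have h6 := hz i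
    rw [h5] at h6
    exact h6
  exact hcont

end core

/-- PRD -/
theorem prd : Pool.Agent.N709.UM.Prd.{u, v} := by
  intro I G _ _ _ _ hM hS s hs ht hle
  apply le_antisymm _ hle
  have h := @core I G _ _ _ (∀ i, G i) _ s hs ht hM hS (MulEquiv.refl _)
    (continuous_id_iff_le.2 hle)
  exact continuous_id_iff_le.1 h

end Pool.Agent.N691.UM
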