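import Pool.Agent.N906.RS.Stm

/-!
# RS/COSET (for helper906, MP_a793bb_nt): elements of a coset of an ideal in an annulus
-/

set_option autoImplicit false

namespace Pool.Agent.N691.RS
open NumberField NumberField.InfinitePlace NumberField.mixedEmbedding MeasureTheory
open scoped nonZeroDivisors ENNReal NNReal

theorem exists_small (K : Type) [Field K] [NumberField K] : ∃ C : ℝ, 0 < C ∧
    ∀ 𝔞 : Ideal (𝓞 K), 𝔞 ≠ ⊥ → ∀ ν : ℝ, 0 < ν →
      ν ^ (Module.finrank ℚ K) = (Ideal.absNorm 𝔞 : ℝ) →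
      ∃ α : 𝓞 K, α ∈ 𝔞 ∧ α ≠ 0 ∧ ∀ w : InfinitePlace K, w (α : K) ≤ C * ν := by
  classical
  let W : ℝ≥0∞ := volume (ZSpan.fundamentalDomain (latticeBasis K)) *
    (2 : ℝ≥0∞) ^ (Module.finrank ℝ (mixedSpace K))
  have hW : W < ⊤ := ENNReal.mul_lt_top (ZSpan.fundamentalDomain_isBounded _).measure_lt_top
    (ENNReal.pow_lt_top ENNReal.ofNat_lt_top)
  have hd : 1 ≤ Module.finrank ℚ K := Module.finrank_pos
  refine ⟨W.toReal + 1, by positivity, fun 𝔞 h𝔞 ν hν hνd => ?_⟩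
  set C : ℝ := W.toReal + 1 with hC
  have hC1 : 1 ≤ C := by rw [hC]; linarith [ENNReal.toReal_nonneg (a := W)]
  let I : (FractionalIdeal (𝓞 K)⁰ K)ˣ :=
    FractionalIdeal.mk0 K ⟨𝔞, mem_nonZeroDivisors_of_ne_zero h𝔞⟩
  have hI : (I : FractionalIdeal (𝓞 K)⁰ K) = (𝔞 : FractionalIdeal (𝓞 K)⁰ K) := rfl
  let f : InfinitePlace K → ℝ≥0 := fun _ => (C * ν).toNNReal
  have hN : (0 : ℝ) < (Ideal.absNorm 𝔞 : ℝ) := by
    rw [← hνd]; positivity
  have key : minkowskiBound K I < volume (convexBodyLT K f) := by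
    rw [convexBodyLT_volume, minkowskiBound,
      volume_fundamentalDomain_fractionalIdealLatticeBasis, hI,
      FractionalIdeal.coeIdeal_absNorm, mul_assoc]
    have e3 : (∏ w : InfinitePlace K, ((f w : ℝ≥0) : ℝ≥0∞) ^ (mult w)) =
        ENNReal.ofReal (C ^ (Module.finrank ℚ K) * (Ideal.absNorm 𝔞 : ℝ)) := by
      have e1 : ∀ w : InfinitePlace K, ((f w : ℝ≥0) : ℝ≥0∞) = ENNReal.ofReal (C * ν) :=
        fun w => rfl
      simp only [e1]
      rw [Finset.prod_pow_eq_pow_sum, sum_mult_eq, ← ENNReal.ofReal_pow (by positivity), mul_pow,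
        hνd]
    have e4 : ENNReal.ofReal (((Ideal.absNorm 𝔞 : ℕ) : ℚ) : ℝ) * W <
        ENNReal.ofReal (C ^ (Module.finrank ℚ K) * (Ideal.absNorm 𝔞 : ℝ)) := by
      rw [← ENNReal.ofReal_toReal hW.ne, ← ENNReal.ofReal_mul (by positivity)]
      apply (ENNReal.ofReal_lt_ofReal_iff (by positivity)).2
      have h1 : C ≤ C ^ (Module.finrank ℚ K) := le_self_pow₀ hC1 (by omega)
      have h2 : W.toReal < C := by rw [hC]; linarith
      push_cast
      nlinarith
    have e5 : (1 : ℝ≥0∞) ≤ (convexBodyLTFactor K : ℝ≥0∞) := by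
      exact_mod_cast one_le_convexBodyLTFactor K
    calc _ < ENNReal.ofReal (C ^ (Module.finrank ℚ K) * (Ideal.absNorm 𝔞 : ℝ)) := e4
      _ = 1 * ENNReal.ofReal (C ^ (Module.finrank ℚ K) * (Ideal.absNorm 𝔞 : ℝ)) := (one_mul _).symm
      _ ≤ _ := by
        rw [← e3]
        exact mul_le_mul' e5 (by push_cast; exact le_rfl)
  obtain ⟨a, ha, ha0, haw⟩ := exists_ne_zero_mem_ideal_lt K I key
  rw [hI, FractionalIdeal.mem_coeIdeal] at ha
  obtain ⟨α, hα, rfl⟩ := ha
  refine ⟨α, hα, fun h => ha0 (by rw [h, map_zero]), fun w => ?_⟩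
  have h1 := (haw w).le
  have h2 : ((f w : ℝ≥0) : ℝ) = C * ν := Real.coe_toNNReal _ (by positivity)
  rw [h2] at h1
  exact h1

open scoped Classical in
theorem normAtPlace_le (K : Type) [Field K] [NumberField K] (w : InfinitePlace K)
    (x : mixedSpace K) : normAtPlace w x ≤ ‖x‖ := by
  rw [norm_eq_sup'_normAtPlace]
  exact Finset.le_sup' (fun w => normAtPlace w x) (Finset.mem_univ w)

theorem approx (K : Type) [Field K] [NumberField K] : ∃ B : ℝ, 0 < B ∧
    ∀ (α t : 𝓞 K) (z : mixedSpace K), α ≠ 0 → ∃ β : 𝓞 K, ∀ w : InfinitePlace K,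
      normAtPlace w (z - mixedEmbedding K ((t + α * β : 𝓞 K) : K)) ≤ w (α : K) * B := by
  classical
  refine ⟨∑ i, ‖latticeBasis K i‖ + 1, by positivity, fun α t z hα => ?_⟩
  have hα' : (α : K) ≠ 0 := by
    intro h
    exact hα (RingOfIntegers.coe_eq_zero_iff.1 h)
  set x : mixedSpace K := (z - mixedEmbedding K (t : K)) * mixedEmbedding K ((α : K)⁻¹) with hx
  have h1 := (ZSpan.floor (latticeBasis K) x).2
  rw [mem_span_latticeBasis] at h1
  obtain ⟨β, hβ⟩ := h1
  refine ⟨β, fun w => ?_⟩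
  have h2 : z - mixedEmbedding K ((t + α * β : 𝓞 K) : K) =
      mixedEmbedding K (α : K) * ZSpan.fract (latticeBasis K) x := by
    rw [ZSpan.fract_apply]
    have h3 : mixedEmbedding K (α : K) * x = z - mixedEmbedding K (t : K) := by
      rw [hx, mul_comm, mul_assoc, ← map_mul, inv_mul_cancel₀ hα', map_one, mul_one]
    have h4 : ((ZSpan.floor (latticeBasis K) x : mixedSpace K)) = mixedEmbedding K (β : K) := by
      rw [← hβ]; rfl
    have h5 : ((t + α * β : 𝓞 K) : K) = (t : K) + (α : K) * (β : K) := by simp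
    rw [mul_sub, h3, h4, h5, map_add, map_mul]
    ring
  rw [h2, map_mul, normAtPlace_apply]
  apply mul_le_mul_of_nonneg_left _ (apply_nonneg w _)
  refine (normAtPlace_le K w _).trans ((ZSpan.norm_fract_le _ _).trans ?_)
  linarith

/-- the centres of the boxes -/
noncomputable def zp (K : Type) [Field K] [NumberField K] (m : ℕ) (R δ : ℝ)
    (j : ({w : InfinitePlace K // IsReal w} → Fin m) ×
      ({w : InfinitePlace K // IsComplex w} → Fin m × Fin m)) : mixedSpace K :=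
  (fun w => 5 * R / 8 + 3 * δ * (j.1 w : ℕ),
   fun w => ⟨5 * R / 8 + 3 * δ * ((j.2 w).1 : ℕ), 3 * δ * ((j.2 w).2 : ℕ)⟩)

theorem zp_bd (K : Type) [Field K] [NumberField K] (m : ℕ) (R δ : ℝ) (hR : 0 < R) (hδ : 0 < δ)
    (hm : 3 * δ * m ≤ R / 8)
    (j : ({w : InfinitePlace K // IsReal w} → Fin m) ×
      ({w : InfinitePlace K // IsComplex w} → Fin m × Fin m)) (w : InfinitePlace K) :
    5 * R / 8 ≤ normAtPlace w (zp K m R δ j) ∧ normAtPlace w (zp K m R δ j) ≤ 7 * R / 8 := by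
  have hb : ∀ i : Fin m, 0 ≤ 3 * δ * ((i : ℕ) : ℝ) ∧ 3 * δ * ((i : ℕ) : ℝ) ≤ R / 8 := by
    intro i
    refine ⟨by positivity, le_trans ?_ hm⟩
    have : ((i : ℕ) : ℝ) ≤ m := by exact_mod_cast i.2.le
    gcongr
  by_cases hw : IsReal w
  · rw [normAtPlace_apply_of_isReal hw]
    have h := hb (j.1 ⟨w, hw⟩)
    simp only [zp]
    rw [Real.norm_of_nonneg (by linarith [h.1])]
    constructor <;> linarith [h.1, h.2]
  · have hw' : IsComplex w := not_isReal_iff_isComplex.mp hw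
    rw [normAtPlace_apply_of_isComplex hw']
    have h := hb (j.2 ⟨w, hw'⟩).1
    have h' := hb (j.2 ⟨w, hw'⟩).2
    simp only [zp]
    constructor
    · refine le_trans ?_ (Complex.abs_re_le_norm _)
      refine le_trans ?_ (le_abs_self _)
      show 5 * R / 8 ≤ 5 * R / 8 + 3 * δ * (((j.2 ⟨w, hw'⟩).1 : ℕ) : ℝ)
      linarith [h.1]
    · refine (Complex.norm_le_abs_re_add_abs_im _).trans ?_
      show |5 * R / 8 + 3 * δ * (((j.2 ⟨w, hw'⟩).1 : ℕ) : ℝ)| +
        |3 * δ * (((j.2 ⟨w, hw'⟩).2 : ℕ) : ℝ)| ≤ 7 * R / 8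
      rw [abs_of_nonneg (by linarith [h.1]), abs_of_nonneg h'.1]
      linarith [h.2, h'.2]

theorem fin_eq {m : ℕ} {δ : ℝ} (hδ : 0 < δ) (i i' : Fin m)
    (h : |3 * δ * ((i : ℕ) : ℝ) - 3 * δ * ((i' : ℕ) : ℝ)| ≤ 2 * δ) : i = i' := by
  have h1 : 3 * δ * ((i : ℕ) : ℝ) - 3 * δ * ((i' : ℕ) : ℝ) =
      3 * δ * (((((i : ℕ) : ℤ) - ((i' : ℕ) : ℤ) : ℤ)) : ℝ) := by push_cast; ring
  rw [h1, abs_mul, abs_of_pos (by positivity : 0 < 3 * δ)] at h
  have h2 : |(((((i : ℕ) : ℤ) - ((i' : ℕ) : ℤ) : ℤ)) : ℝ)| < 1 := by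
    by_contra hc
    push Not at hc
    nlinarith
  have h3 : |(((i : ℕ) : ℤ) - ((i' : ℕ) : ℤ))| < 1 := by exact_mod_cast h2
  rw [Int.abs_lt_one_iff] at h3
  apply Fin.ext
  omega

theorem zp_inj (K : Type) [Field K] [NumberField K] (m : ℕ) (R δ : ℝ) (hδ : 0 < δ)
    (j j' : ({w : InfinitePlace K // IsReal w} → Fin m) ×
      ({w : InfinitePlace K // IsComplex w} → Fin m × Fin m))
    (h : ∀ w : InfinitePlace K, normAtPlace w (zp K m R δ j - zp K m R δ j') ≤ 2 * δ) :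
    j = j' := by
  apply Prod.ext
  · funext w
    have h1 := h w.1
    rw [normAtPlace_apply_of_isReal w.2] at h1
    apply fin_eq hδ
    have h2 : (zp K m R δ j - zp K m R δ j').1 ⟨w.1, w.2⟩ =
        3 * δ * ((j.1 w : ℕ) : ℝ) - 3 * δ * ((j'.1 w : ℕ) : ℝ) := by
      simp only [zp, Prod.fst_sub, Pi.sub_apply]
      ring
    rw [h2, Real.norm_eq_abs] at h1
    exact h1
  · funext w
    have h1 := h w.1
    rw [normAtPlace_apply_of_isComplex w.2] at h1
    apply Prod.ext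
    · apply fin_eq hδ
      refine le_trans ?_ h1
      refine le_trans (le_of_eq ?_) (Complex.abs_re_le_norm _)
      congr 1
      simp only [zp, Prod.snd_sub, Pi.sub_apply, Complex.sub_re]
      ring
    · apply fin_eq hδ
      refine le_trans ?_ h1
      refine le_trans (le_of_eq ?_) (Complex.abs_im_le_norm _)
      congr 1

theorem coset0 (K : Type) [Field K] [NumberField K] : ∃ c : ℝ, 0 < c ∧
    ∀ (R : ℝ) (𝔞 : Ideal (𝓞 K)) (t : 𝓞 K), 1 ≤ R → 𝔞 ≠ ⊥ →
    (Ideal.absNorm 𝔞 : ℝ) ≤ c * R ^ Module.finrank ℚ K →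
    ∃ F : Finset (𝓞 K), (∀ a ∈ F, a - t ∈ 𝔞 ∧ ∀ w : InfinitePlace K, R / 2 ≤ w a ∧ w a ≤ R) ∧
      c * (R ^ Module.finrank ℚ K / Ideal.absNorm 𝔞) ≤ F.card := by
  classical
  obtain ⟨C1, hC1, h1⟩ := exists_small K
  obtain ⟨B, hB, h2⟩ := approx K
  have hd : Module.finrank ℚ K ≠ 0 := Module.finrank_pos.ne'
  have hC2 : 0 < C1 * B := by positivity
  refine ⟨(1 / (48 * (C1 * B))) ^ Module.finrank ℚ K, by positivity,
    fun R 𝔞 t hR h𝔞 hN => ?_⟩
  have hN0 : 0 < (Ideal.absNorm 𝔞 : ℝ) := by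
    have : Ideal.absNorm 𝔞 ≠ 0 := by
      intro h
      exact h𝔞 (Ideal.absNorm_eq_zero_iff.1 h)
    positivity
  have hR0 : 0 < R := by linarith
  set ν : ℝ := (Ideal.absNorm 𝔞 : ℝ) ^ ((1 : ℝ) / (Module.finrank ℚ K : ℕ)) with hν
  have hν0 : 0 < ν := by positivity
  have hνd : ν ^ (Module.finrank ℚ K) = (Ideal.absNorm 𝔞 : ℝ) := by
    rw [hν, one_div]
    exact Real.rpow_inv_natCast_pow hN0.le hd
  obtain ⟨α, hα, hα0, hαw⟩ := h1 𝔞 h𝔞 ν hν0 hνd
  set δ : ℝ := C1 * B * ν with hδ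
  have hδ0 : 0 < δ := by positivity
  have hδR : 48 * δ ≤ R := by
    have h3 : ν ^ (Module.finrank ℚ K) ≤ (1 / (48 * (C1 * B)) * R) ^ (Module.finrank ℚ K) := by
      rw [hνd, mul_pow]; exact hN
    have h4 : ν ≤ 1 / (48 * (C1 * B)) * R :=
      (pow_le_pow_iff_left₀ hν0.le (by positivity) hd).1 h3
    have h5 : 48 * δ ≤ 48 * (C1 * B * (1 / (48 * (C1 * B)) * R)) := by
      rw [hδ]; gcongr
    have h6 : 48 * (C1 * B * (1 / (48 * (C1 * B)) * R)) = R := by
      field_simp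
    linarith
  set m : ℕ := ⌊R / (24 * δ)⌋₊ with hm
  have hm1 : (m : ℝ) ≤ R / (24 * δ) := Nat.floor_le (by positivity)
  have hm2 : R / (24 * δ) < m + 1 := Nat.lt_floor_add_one _
  have hm3 : R / (48 * δ) ≤ m := by
    have h3 : 1 ≤ R / (48 * δ) := by
      rw [le_div_iff₀ (by positivity)]; linarith
    have h4 : R / (24 * δ) = 2 * (R / (48 * δ)) := by field_simp; ring
    linarith
  have hm4 : 3 * δ * m ≤ R / 8 := by
    have h3 : 3 * δ * m ≤ 3 * δ * (R / (24 * δ)) := by gcongr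
    have h4 : 3 * δ * (R / (24 * δ)) = R / 8 := by field_simp; ring
    linarith
  have h3 := fun j => h2 α t (zp K m R δ j) hα0
  choose β hβ using h3
  have hβ' : ∀ j, ∀ w : InfinitePlace K,
      normAtPlace w (zp K m R δ j - mixedEmbedding K ((t + α * β j : 𝓞 K) : K)) ≤ δ := by
    intro j w
    refine (hβ j w).trans ?_
    calc w (α : K) * B ≤ (C1 * ν) * B := by
          have := hαw w
          gcongr
      _ = δ := by rw [hδ]; ring
  have hinj : Function.Injective fun j => t + α * β j := by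
    intro j j' hjj
    apply zp_inj K m R δ hδ0
    intro w
    have e1 := hβ' j w
    have e2 := hβ' j' w
    have e3 : (t + α * β j : 𝓞 K) = t + α * β j' := hjj
    rw [e3] at e1
    have e4 : zp K m R δ j - zp K m R δ j' =
        (zp K m R δ j - mixedEmbedding K ((t + α * β j' : 𝓞 K) : K)) +
        -(zp K m R δ j' - mixedEmbedding K ((t + α * β j' : 𝓞 K) : K)) := by abel
    rw [e4]
    refine (normAtPlace_add_le w _ _).trans ?_
    rw [normAtPlace_neg]
    linarith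
  refine ⟨Finset.univ.image fun j => t + α * β j, ?_, ?_⟩
  · intro a ha
    rw [Finset.mem_image] at ha
    obtain ⟨j, -, rfl⟩ := ha
    refine ⟨?_, fun w => ?_⟩
    · rw [add_sub_cancel_left]
      exact Ideal.mul_mem_right _ _ hα
    · have e1 := hβ' j w
      have e2 := zp_bd K m R δ hR0 hδ0 hm4 j w
      have e3 : normAtPlace w (mixedEmbedding K ((t + α * β j : 𝓞 K) : K)) =
          w ((t + α * β j : 𝓞 K) : K) := normAtPlace_apply w _
      have e4 : normAtPlace w (zp K m R δ j) ≤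
          normAtPlace w (zp K m R δ j - mixedEmbedding K ((t + α * β j : 𝓞 K) : K)) +
          normAtPlace w (mixedEmbedding K ((t + α * β j : 𝓞 K) : K)) := by
        have := normAtPlace_add_le w
          (zp K m R δ j - mixedEmbedding K ((t + α * β j : 𝓞 K) : K))
          (mixedEmbedding K ((t + α * β j : 𝓞 K) : K))
        rwa [sub_add_cancel] at this
      have e5 : normAtPlace w (mixedEmbedding K ((t + α * β j : 𝓞 K) : K)) ≤
          normAtPlace w (zp K m R δ j) +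
          normAtPlace w (zp K m R δ j - mixedEmbedding K ((t + α * β j : 𝓞 K) : K)) := by
        have := normAtPlace_add_le w (zp K m R δ j)
          (-(zp K m R δ j - mixedEmbedding K ((t + α * β j : 𝓞 K) : K)))
        rw [normAtPlace_neg] at this
        have e6 : zp K m R δ j + -(zp K m R δ j - mixedEmbedding K ((t + α * β j : 𝓞 K) : K)) =
          mixedEmbedding K ((t + α * β j : 𝓞 K) : K) := by abel
        rwa [e6] at this
      rw [e3] at e4 e5
      constructor <;> linarith [e2.1, e2.2]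
  · rw [Finset.card_image_of_injective _ hinj, Finset.card_univ, Fintype.card_prod,
      Fintype.card_fun, Fintype.card_fun, Fintype.card_prod, Fintype.card_fin]
    have e1 : m ^ Fintype.card {w : InfinitePlace K // IsReal w} *
        (m * m) ^ Fintype.card {w : InfinitePlace K // IsComplex w} =
        m ^ Module.finrank ℚ K := by
      rw [← card_add_two_mul_card_eq_rank K, pow_add, pow_mul, pow_two]
    rw [e1, ← hνd, ← div_pow, ← mul_pow, Nat.cast_pow]
    have e2 : 1 / (48 * (C1 * B)) * (R / ν) = R / (48 * δ) := by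
      rw [hδ]; field_simp
    rw [e2]
    gcongr

theorem coset (K : Type) [Field K] [NumberField K] : Pool.Agent.N906.RS.S_COSET K :=
  coset0 K

end Pool.Agent.N691.RS
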