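import Pool.Agent.N657.QL.Stm

/-!
# Project QL, part TRANS: the transverse infrared bound
-/

namespace Pool.Agent.N691.QLT

open MeasureTheory Filter Topology
open Pool.Agent.N657.QR Pool.Agent.N657.QL

section A

variable {V : Type} [Fintype V] [DecidableEq V]

theorem pd_add_smul (hT : S_TPB) (P Q : (V → ℝ) → ℝ) (hP : P ∈ TP V) (hQ : Q ∈ TP V) (c : ℝ)
    (x : V) (θ : V → ℝ) : pd x (P + c • Q) θ = pd x P θ + c * pd x Q θ := by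
  have h := (hT.hasd P hP x θ).add ((hT.hasd Q hQ x θ).const_mul c)
  exact h.deriv

theorem pd_pow (hT : S_TPB) (M : ℕ) (x : V) (θ : V → ℝ) :
    pd x ((1 + my) ^ M) θ =
      (M : ℝ) * (1 + my θ) ^ (M - 1) * (Real.cos (θ x) / (Fintype.card V : ℝ)) := by
  have hm : (my : (V → ℝ) → ℝ) ∈ TP V := (hT.mem (fun _ => 1)).2.2.2.1
  have h0 := hT.hasd my hm x θ
  rw [(hT.pdm x θ).2.1] at h0
  have h := ((h0.const_add 1).pow M).deriv
  have h1 : θ + (0 : ℝ) • (Pi.single x 1 : V → ℝ) = θ := by simp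
  rw [h1] at h
  exact h

theorem pd_T (hT : S_TPB) (f : V → ℝ) (x : V) (θ : V → ℝ) :
    pd x (Tf f) θ = f x * (mx θ * Real.cos (θ x) + my θ * Real.sin (θ x)) -
      (Yf f θ * Real.sin (θ x) + Xf f θ * Real.cos (θ x)) / (Fintype.card V : ℝ) := by
  obtain ⟨hX, hY, hmx, hmy, -, -, -, -⟩ := hT.mem f
  have h := (((hT.hasd mx hmx x θ).mul (hT.hasd (Yf f) hY x θ)).sub
    ((hT.hasd my hmy x θ).mul (hT.hasd (Xf f) hX x θ))).deriv
  have h1 : θ + (0 : ℝ) • (Pi.single x 1 : V → ℝ) = θ := by simp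
  rw [h1, (hT.pdm x θ).2.1, (hT.pdm x θ).1, (hT.pdX f x θ).1, (hT.pdX f x θ).2] at h
  refine Eq.trans h ?_
  ring

theorem my_bd (hT : S_TPB) [Nonempty V] (θ : V → ℝ) : 0 ≤ 1 + my θ ∧ 1 + my θ ≤ 2 := by
  obtain ⟨-, h1, -⟩ := hT.bounds (fun _ => 1) θ
  unfold r2 at h1
  have h2 : my θ ^ 2 ≤ 1 := by nlinarith [sq_nonneg (mx θ)]
  have h3 := abs_le.1 (abs_le_of_sq_le_sq (a := my θ) (b := 1) (by simpa using h2) zero_le_one)
  exact ⟨by linarith [h3.1], by linarith [h3.2]⟩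

theorem T_le (hT : S_TPB) [Nonempty V] (f : V → ℝ) (θ : V → ℝ) : Tf f θ ^ 2 ≤ Nf f θ := by
  obtain ⟨h0, h1, h2, -⟩ := hT.bounds f θ
  have hN : 0 ≤ Nf f θ := by unfold Nf; positivity
  nlinarith [sq_nonneg (Lf f θ)]

theorem grP_le (hT : S_TPB) [Nonempty V] (M : ℕ) (θ : V → ℝ) :
    gr ((1 + my) ^ M) θ ≤ (M : ℝ) ^ 2 * 4 ^ M / (Fintype.card V : ℝ) := by
  have hn : (0 : ℝ) < (Fintype.card V : ℝ) := by exact_mod_cast Fintype.card_pos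
  obtain ⟨hb0, hb1⟩ := my_bd hT θ
  have hp : (1 + my θ) ^ (M - 1) ≤ 2 ^ M :=
    le_trans (pow_le_pow_left₀ hb0 hb1 _) (pow_le_pow_right₀ (by norm_num) (by omega))
  have hp0 : 0 ≤ (1 + my θ) ^ (M - 1) := pow_nonneg hb0 _
  have hp2 : ((1 + my θ) ^ (M - 1)) ^ 2 ≤ 4 ^ M := by
    calc ((1 + my θ) ^ (M - 1)) ^ 2 ≤ (2 ^ M) ^ 2 := pow_le_pow_left₀ hp0 hp _
      _ = 4 ^ M := by rw [← pow_mul, mul_comm, pow_mul]; norm_num
  have hx : ∀ x : V, pd x ((1 + my) ^ M) θ ^ 2 ≤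
      (M : ℝ) ^ 2 * 4 ^ M / (Fintype.card V : ℝ) ^ 2 := by
    intro x
    rw [pd_pow hT, mul_pow, mul_pow, div_pow, mul_div_assoc', ]
    apply div_le_div_of_nonneg_right _ (by positivity)
    have hc : Real.cos (θ x) ^ 2 ≤ 1 := Real.cos_sq_le_one _
    have hc0 : 0 ≤ Real.cos (θ x) ^ 2 := sq_nonneg _
    calc (M : ℝ) ^ 2 * ((1 + my θ) ^ (M - 1)) ^ 2 * Real.cos (θ x) ^ 2
        ≤ (M : ℝ) ^ 2 * ((1 + my θ) ^ (M - 1)) ^ 2 * 1 :=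
          mul_le_mul_of_nonneg_left hc (by positivity)
      _ ≤ (M : ℝ) ^ 2 * 4 ^ M := by
          rw [mul_one]
          exact mul_le_mul_of_nonneg_left hp2 (by positivity)
  unfold gr
  calc ∑ x, pd x ((1 + my) ^ M) θ ^ 2
      ≤ ∑ x : V, (M : ℝ) ^ 2 * 4 ^ M / (Fintype.card V : ℝ) ^ 2 :=
        Finset.sum_le_sum fun x _ => hx x
    _ = (M : ℝ) ^ 2 * 4 ^ M / (Fintype.card V : ℝ) := by
        rw [Finset.sum_const, Finset.card_univ, nsmul_eq_mul]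
        field_simp

theorem young (a b e : ℝ) (he : 0 < e) :
    (a + b) ^ 2 ≤ (1 + e) * a ^ 2 + (1 + 1 / e) * b ^ 2 := by
  have h : (1 + e) * a ^ 2 + (1 + 1 / e) * b ^ 2 - (a + b) ^ 2 = (e * a - b) ^ 2 / e := by
    field_simp
    ring
  have h2 : 0 ≤ (e * a - b) ^ 2 / e := by positivity
  linarith

theorem grT_le (hT : S_TPB) [Nonempty V] (f : V → ℝ) (e : ℝ) (he : 0 < e) (θ : V → ℝ) :
    gr (Tf f) θ ≤ (1 + e) * (∑ x, f x ^ 2) +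
      (1 + 1 / e) * (Nf f θ / (Fintype.card V : ℝ)) := by
  have hn : (0 : ℝ) < (Fintype.card V : ℝ) := by exact_mod_cast Fintype.card_pos
  obtain ⟨-, hr1, -⟩ := hT.bounds f θ
  have hx : ∀ x : V, pd x (Tf f) θ ^ 2 ≤
      (1 + e) * f x ^ 2 + (1 + 1 / e) * (Nf f θ / (Fintype.card V : ℝ) ^ 2) := by
    intro x
    rw [pd_T hT, sub_eq_add_neg]
    refine le_trans (young _ _ e he) ?_
    have hcs := Real.sin_sq_add_cos_sq (θ x)
    have h1 : (f x * (mx θ * Real.cos (θ x) + my θ * Real.sin (θ x))) ^ 2 ≤ f x ^ 2 := by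
      rw [mul_pow]
      have h2 : (mx θ * Real.cos (θ x) + my θ * Real.sin (θ x)) ^ 2 ≤ 1 := by
        have h3 : (mx θ * Real.cos (θ x) + my θ * Real.sin (θ x)) ^ 2 +
            (mx θ * Real.sin (θ x) - my θ * Real.cos (θ x)) ^ 2 =
            r2 θ * (Real.sin (θ x) ^ 2 + Real.cos (θ x) ^ 2) := by
          unfold r2; ring
        rw [hcs, mul_one] at h3
        nlinarith [sq_nonneg (mx θ * Real.sin (θ x) - my θ * Real.cos (θ x))]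
      nlinarith [sq_nonneg (f x)]
    have h4 : (-((Yf f θ * Real.sin (θ x) + Xf f θ * Real.cos (θ x)) /
        (Fintype.card V : ℝ))) ^ 2 ≤ Nf f θ / (Fintype.card V : ℝ) ^ 2 := by
      rw [neg_sq, div_pow]
      apply div_le_div_of_nonneg_right _ (by positivity)
      have h5 : (Yf f θ * Real.sin (θ x) + Xf f θ * Real.cos (θ x)) ^ 2 +
          (Yf f θ * Real.cos (θ x) - Xf f θ * Real.sin (θ x)) ^ 2 =
          Nf f θ * (Real.sin (θ x) ^ 2 + Real.cos (θ x) ^ 2) := by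
        unfold Nf; ring
      rw [hcs, mul_one] at h5
      nlinarith [sq_nonneg (Yf f θ * Real.cos (θ x) - Xf f θ * Real.sin (θ x))]
    have h6 : 0 ≤ 1 + 1 / e := by positivity
    exact add_le_add (mul_le_mul_of_nonneg_left h1 (by linarith))
      (mul_le_mul_of_nonneg_left h4 h6)
  unfold gr
  refine le_trans (Finset.sum_le_sum fun x _ => hx x) (le_of_eq ?_)
  rw [Finset.sum_add_distrib, ← Finset.mul_sum, Finset.sum_const, Finset.card_univ, nsmul_eq_mul]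
  congr 1
  field_simp

theorem grQ_le (hT : S_TPB) [Nonempty V] (M : ℕ) (f : V → ℝ) (e : ℝ) (he : 0 < e) (θ : V → ℝ) :
    gr ((1 + my) ^ M * Tf f) θ ≤ (1 + e) ^ 2 * (∑ x, f x ^ 2) * (1 + my θ) ^ (2 * M) +
      ((1 + e) * (1 + 1 / e) * 4 ^ M + (1 + 1 / e) * ((M : ℝ) ^ 2 * 4 ^ M)) *
        (Nf f θ / (Fintype.card V : ℝ)) := by
  have hn : (0 : ℝ) < (Fintype.card V : ℝ) := by exact_mod_cast Fintype.card_pos
  obtain ⟨hX, hY, hmx, hmy, -, -, -, hTf⟩ := hT.mem f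
  have hP : ((1 + my) ^ M : (V → ℝ) → ℝ) ∈ TP V :=
    pow_mem (add_mem (one_mem _) hmy) M
  obtain ⟨hb0, hb1⟩ := my_bd hT θ
  have hPθ : ((1 + my) ^ M : (V → ℝ) → ℝ) θ = (1 + my θ) ^ M := rfl
  have hP2 : (1 + my θ) ^ (2 * M) ≤ 4 ^ M := by
    rw [pow_mul]
    apply pow_le_pow_left₀ (sq_nonneg _)
    nlinarith
  have hP20 : 0 ≤ (1 + my θ) ^ (2 * M) := pow_nonneg hb0 _
  have hN : 0 ≤ Nf f θ := by unfold Nf; positivity
  have hx : ∀ x : V, pd x ((1 + my) ^ M * Tf f) θ ^ 2 ≤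
      (1 + e) * (1 + my θ) ^ (2 * M) * pd x (Tf f) θ ^ 2 +
        (1 + 1 / e) * Tf f θ ^ 2 * pd x ((1 + my) ^ M) θ ^ 2 := by
    intro x
    rw [hT.pdmul _ _ hP hTf, hPθ, add_comm]
    refine le_trans (young _ _ e he) (le_of_eq ?_)
    rw [mul_pow, mul_pow, ← pow_mul, mul_comm M 2]
    ring
  have h1 : gr ((1 + my) ^ M * Tf f) θ ≤ (1 + e) * (1 + my θ) ^ (2 * M) * gr (Tf f) θ +
      (1 + 1 / e) * Tf f θ ^ 2 * gr ((1 + my) ^ M) θ := by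
    unfold gr
    refine le_trans (Finset.sum_le_sum fun x _ => hx x) (le_of_eq ?_)
    rw [Finset.sum_add_distrib, ← Finset.mul_sum, ← Finset.mul_sum]
  refine le_trans h1 ?_
  have h2 := grT_le hT f e he θ
  have h3 := grP_le hT M θ
  have h4 := T_le hT f θ
  have he1 : 0 ≤ 1 + 1 / e := by positivity
  have h5 : (1 + e) * (1 + my θ) ^ (2 * M) * gr (Tf f) θ ≤
      (1 + e) * (1 + my θ) ^ (2 * M) * ((1 + e) * (∑ x, f x ^ 2) +
      (1 + 1 / e) * (Nf f θ / (Fintype.card V : ℝ))) :=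
    mul_le_mul_of_nonneg_left h2 (by positivity)
  have h6 : (1 + 1 / e) * Tf f θ ^ 2 * gr ((1 + my) ^ M) θ ≤
      (1 + 1 / e) * Nf f θ * ((M : ℝ) ^ 2 * 4 ^ M / (Fintype.card V : ℝ)) := by
    apply mul_le_mul _ h3
    · unfold gr; positivity
    · positivity
    · exact mul_le_mul_of_nonneg_left h4 he1
  have h7 : (1 + e) * (1 + my θ) ^ (2 * M) * ((1 + 1 / e) * (Nf f θ / (Fintype.card V : ℝ))) ≤
      (1 + e) * 4 ^ M * ((1 + 1 / e) * (Nf f θ / (Fintype.card V : ℝ))) := by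
    apply mul_le_mul_of_nonneg_right _ (by positivity)
    exact mul_le_mul_of_nonneg_left hP2 (by linarith)
  have h8 : (1 + 1 / e) * Nf f θ * ((M : ℝ) ^ 2 * 4 ^ M / (Fintype.card V : ℝ)) =
      (1 + 1 / e) * ((M : ℝ) ^ 2 * 4 ^ M) * (Nf f θ / (Fintype.card V : ℝ)) := by
    ring
  rw [h8] at h6
  have h9 : (1 + e) * (1 + my θ) ^ (2 * M) * ((1 + e) * (∑ x, f x ^ 2) +
      (1 + 1 / e) * (Nf f θ / (Fintype.card V : ℝ))) =
      (1 + e) ^ 2 * (∑ x, f x ^ 2) * (1 + my θ) ^ (2 * M) +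
      (1 + e) * (1 + my θ) ^ (2 * M) * ((1 + 1 / e) * (Nf f θ / (Fintype.card V : ℝ))) := by
    ring
  rw [h9] at h5
  have h10 : (1 + e) * 4 ^ M * ((1 + 1 / e) * (Nf f θ / (Fintype.card V : ℝ))) =
      (1 + e) * (1 + 1 / e) * 4 ^ M * (Nf f θ / (Fintype.card V : ℝ)) := by ring
  rw [h10] at h7
  have h11 : ((1 + e) * (1 + 1 / e) * 4 ^ M + (1 + 1 / e) * ((M : ℝ) ^ 2 * 4 ^ M)) *
        (Nf f θ / (Fintype.card V : ℝ)) =
      (1 + e) * (1 + 1 / e) * 4 ^ M * (Nf f θ / (Fintype.card V : ℝ)) +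
      (1 + 1 / e) * ((M : ℝ) ^ 2 * 4 ^ M) * (Nf f θ / (Fintype.card V : ℝ)) := by ring
  rw [h11]
  linarith

theorem gr_par (hT : S_TPB) (P Q : (V → ℝ) → ℝ) (hP : P ∈ TP V) (hQ : Q ∈ TP V) (c : ℝ)
    (θ : V → ℝ) :
    gr (P + c • Q) θ + gr (P + (-c) • Q) θ = 2 * gr P θ + 2 * c ^ 2 * gr Q θ := by
  unfold gr
  rw [← Finset.sum_add_distrib, Finset.mul_sum, Finset.mul_sum, ← Finset.sum_add_distrib]
  refine Finset.sum_congr rfl fun x _ => ?_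
  rw [pd_add_smul hT P Q hP hQ, pd_add_smul hT P Q hP hQ]
  ring

end A

/-- The algebra at the end. -/
theorem fin_alg (A σ u v q n e δ c4 m2 C' s t2 I W GP GQ IP IQ : ℝ)
    (hu : 0 < u) (hv : 0 < v) (hq : 0 < q) (hq2 : q ^ 2 = 2) (hσ : 0 < σ) (hn : 0 < n)
    (he : 0 < e) (he4 : e ≤ 1 / 4) (heδ : 4 * e ≤ δ) (hA : 1 ≤ A) (hc4 : 0 < c4)
    (hm2 : 0 ≤ m2) (hC' : 0 ≤ C') (hs : s = v / (q * u)) (ht : t2 = 2 * e * u / (v * σ * c4))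
    (hI : I ≤ u / v * σ) (hGP : GP ≤ m2 * c4 / n)
    (hGQ : GQ ≤ (1 + e) ^ 2 * σ * A + C' * (I / n)) (hIP : IP ≤ A) (hIQ : IQ ≤ c4 * I)
    (hm : 2 * t2 * s * v ^ 2 * W ≤ u ^ 2 * (GP + t2 * s ^ 2 * GQ) +
      t2 * v ^ 2 / 2 * σ * (IP + t2 * s ^ 2 * IQ)) :
    W ≤ (1 + δ) * A * σ * u / (q * v) + (C' + m2 * c4 ^ 2 / e) * σ * u ^ 2 / (n * v ^ 2) := by
  have ht0 : 0 < t2 := by rw [ht]; positivity
  have hs0 : 0 < s := by rw [hs]; positivity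
  have hK : 0 < 2 * t2 * s * v ^ 2 := by positivity
  refine le_of_mul_le_mul_left (le_trans hm ?_) hK
  have h1 : t2 * s ^ 2 = e * v / (u * σ * c4) := by
    rw [ht, hs, div_pow, mul_pow, hq2]
    field_simp
  have h2 : 2 * t2 * s * v ^ 2 = 4 * e * v ^ 2 / (q * σ * c4) := by
    rw [ht, hs]
    field_simp
    ring
  have h3 : GQ ≤ (1 + e) ^ 2 * σ * A + C' * (u / v * σ / n) :=
    le_trans hGQ (by gcongr)
  have h4 : IQ ≤ c4 * (u / v * σ) := le_trans hIQ (by gcongr)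
  have h5 : u ^ 2 * (GP + t2 * s ^ 2 * GQ) ≤
      u ^ 2 * (m2 * c4 / n + e * v / (u * σ * c4) * ((1 + e) ^ 2 * σ * A + C' * (u / v * σ / n))) := by
    rw [h1]
    gcongr
  have h6 : t2 * v ^ 2 / 2 * σ * (IP + t2 * s ^ 2 * IQ) ≤
      t2 * v ^ 2 / 2 * σ * (A + e * v / (u * σ * c4) * (c4 * (u / v * σ))) := by
    rw [h1]
    gcongr
  have h7 : t2 * v ^ 2 / 2 * σ * (A + e * v / (u * σ * c4) * (c4 * (u / v * σ))) =
      e * u * v / c4 * (A + e) := by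
    rw [ht]
    field_simp
  have h8 : u ^ 2 * (m2 * c4 / n + e * v / (u * σ * c4) * ((1 + e) ^ 2 * σ * A +
      C' * (u / v * σ / n))) =
      e * u * v / c4 * ((1 + e) ^ 2 * A) + u ^ 2 / (c4 * n) * (m2 * c4 ^ 2 + e * C') := by
    field_simp
    ring
  have h9 : 4 * e * v ^ 2 / (q * σ * c4) *
      ((1 + δ) * A * σ * u / (q * v) + (C' + m2 * c4 ^ 2 / e) * σ * u ^ 2 / (n * v ^ 2)) =
      e * u * v / c4 * (2 * (1 + δ) * A) +
        u ^ 2 / (c4 * n) * (4 / q * (e * C' + m2 * c4 ^ 2)) := by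
    field_simp
    linear_combination (-2 * (e * v * (1 + δ) * A * n)) * hq2
  have h10 : (1 + e) ^ 2 * A + (A + e) ≤ 2 * (1 + δ) * A := by
    nlinarith [mul_pos he (by linarith : 0 < A)]
  have h11 : m2 * c4 ^ 2 + e * C' ≤ 4 / q * (e * C' + m2 * c4 ^ 2) := by
    have hq4 : q ≤ 4 := by nlinarith
    have h12 : 1 ≤ 4 / q := by rw [le_div_iff₀ hq]; linarith
    have h13 : 0 ≤ e * C' + m2 * c4 ^ 2 := by positivity
    nlinarith
  rw [h2, h9]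
  have h14 : e * u * v / c4 * ((1 + e) ^ 2 * A) + e * u * v / c4 * (A + e) ≤
      e * u * v / c4 * (2 * (1 + δ) * A) := by
    rw [← mul_add]
    exact mul_le_mul_of_nonneg_left h10 (by positivity)
  have h15 : u ^ 2 / (c4 * n) * (m2 * c4 ^ 2 + e * C') ≤
      u ^ 2 / (c4 * n) * (4 / q * (e * C' + m2 * c4 ^ 2)) :=
    mul_le_mul_of_nonneg_left h11 (by positivity)
  linarith

section B

variable {d L : ℕ} [NeZero L]

theorem intg (hT : S_TPB) {U : ℝ} {μ : Measure ((Fin d → ZMod L) → ℝ)} (hE : Env U μ)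
    (R : ((Fin d → ZMod L) → ℝ) → ℝ) (hR : R ∈ TP (Fin d → ZMod L)) : Integrable R μ := by
  have := hE.prob
  obtain ⟨C, hC⟩ := hT.bdd R hR
  exact Integrable.of_bound (hT.cont R hR).aestronglyMeasurable C
    (Filter.Eventually.of_forall fun θ => by simpa using hC θ)

theorem key (hT : S_TPB) {U : ℝ} {μ : Measure ((Fin d → ZMod L) → ℝ)} (hE : Env U μ)
    (t l c : ℝ) (f : (Fin d → ZMod L) → ℝ) (hf : ∀ x, lap f x = l * f x)
    (P Q : ((Fin d → ZMod L) → ℝ) → ℝ) (hP : P ∈ TP (Fin d → ZMod L))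
    (hQ : Q ∈ TP (Fin d → ZMod L)) :
    t * l * (2 * c * ∫ θ, Xf f θ * (P θ * Q θ) ∂μ) ≤
      U * ((∫ θ, gr P θ ∂μ) + c ^ 2 * ∫ θ, gr Q θ ∂μ) +
      t ^ 2 * l / 2 * (∑ x, f x ^ 2) * ((∫ θ, P θ ^ 2 ∂μ) + c ^ 2 * ∫ θ, Q θ ^ 2 ∂μ) := by
  have hX : Xf f ∈ TP (Fin d → ZMod L) := (hT.mem f).1
  have hRc : ∀ c : ℝ, P + c • Q ∈ TP (Fin d → ZMod L) :=
    fun c => add_mem hP (Subalgebra.smul_mem _ hQ c)
  have h1 := hE.star _ (hRc c) t l f hf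
  have h2 := hE.star _ (hRc (-c)) (-t) l f hf
  have i1 : Integrable (fun θ => Xf f θ * (P + c • Q) θ ^ 2) μ :=
    intg hT hE _ (mul_mem hX (pow_mem (hRc c) 2))
  have i2 : Integrable (fun θ => Xf f θ * (P + (-c) • Q) θ ^ 2) μ :=
    intg hT hE _ (mul_mem hX (pow_mem (hRc (-c)) 2))
  have i3 : Integrable (fun θ => gr (P + c • Q) θ) μ := intg hT hE _ (hT.grmem _ (hRc c))
  have i4 : Integrable (fun θ => gr (P + (-c) • Q) θ) μ := intg hT hE _ (hT.grmem _ (hRc (-c)))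
  have i5 : Integrable (fun θ => (P + c • Q) θ ^ 2) μ := intg hT hE _ (pow_mem (hRc c) 2)
  have i6 : Integrable (fun θ => (P + (-c) • Q) θ ^ 2) μ := intg hT hE _ (pow_mem (hRc (-c)) 2)
  have i7 : Integrable (fun θ => gr P θ) μ := intg hT hE _ (hT.grmem _ hP)
  have i8 : Integrable (fun θ => gr Q θ) μ := intg hT hE _ (hT.grmem _ hQ)
  have i9 : Integrable (fun θ => P θ ^ 2) μ := intg hT hE _ (pow_mem hP 2)
  have i10 : Integrable (fun θ => Q θ ^ 2) μ := intg hT hE _ (pow_mem hQ 2)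
  have e1 : (∫ θ, Xf f θ * (P + c • Q) θ ^ 2 ∂μ) - ∫ θ, Xf f θ * (P + (-c) • Q) θ ^ 2 ∂μ =
      4 * c * ∫ θ, Xf f θ * (P θ * Q θ) ∂μ := by
    rw [← integral_sub i1 i2, ← integral_const_mul]
    refine integral_congr_ae (Filter.Eventually.of_forall fun θ => ?_)
    simp only [Pi.add_apply, Pi.smul_apply, smul_eq_mul]
    ring
  have e2 : (∫ θ, gr (P + c • Q) θ ∂μ) + ∫ θ, gr (P + (-c) • Q) θ ∂μ =
      2 * (∫ θ, gr P θ ∂μ) + 2 * c ^ 2 * ∫ θ, gr Q θ ∂μ := by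
    rw [← integral_add i3 i4, ← integral_const_mul, ← integral_const_mul,
      ← integral_add (i7.const_mul 2) (i8.const_mul (2 * c ^ 2))]
    refine integral_congr_ae (Filter.Eventually.of_forall fun θ => ?_)
    exact gr_par hT P Q hP hQ c θ
  have e3 : (∫ θ, (P + c • Q) θ ^ 2 ∂μ) + ∫ θ, (P + (-c) • Q) θ ^ 2 ∂μ =
      2 * (∫ θ, P θ ^ 2 ∂μ) + 2 * c ^ 2 * ∫ θ, Q θ ^ 2 ∂μ := by
    rw [← integral_add i5 i6, ← integral_const_mul, ← integral_const_mul,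
      ← integral_add (i9.const_mul 2) (i10.const_mul (2 * c ^ 2))]
    refine integral_congr_ae (Filter.Eventually.of_forall fun θ => ?_)
    simp only [Pi.add_apply, Pi.smul_apply, smul_eq_mul]
    ring
  have h3 := add_le_add h1 h2
  have h4 : t * l * (∫ θ, Xf f θ * (P + c • Q) θ ^ 2 ∂μ) +
      -t * l * (∫ θ, Xf f θ * (P + (-c) • Q) θ ^ 2 ∂μ) =
      t * l * (4 * c * ∫ θ, Xf f θ * (P θ * Q θ) ∂μ) := by
    rw [← e1]; ring
  have h5 : U * (∫ θ, gr (P + c • Q) θ ∂μ) + t ^ 2 * l / 2 * (∑ x, f x ^ 2) *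
        (∫ θ, (P + c • Q) θ ^ 2 ∂μ) +
      (U * (∫ θ, gr (P + (-c) • Q) θ ∂μ) + (-t) ^ 2 * l / 2 * (∑ x, f x ^ 2) *
        (∫ θ, (P + (-c) • Q) θ ^ 2 ∂μ)) =
      U * (2 * (∫ θ, gr P θ ∂μ) + 2 * c ^ 2 * ∫ θ, gr Q θ ∂μ) +
      t ^ 2 * l / 2 * (∑ x, f x ^ 2) *
        (2 * (∫ θ, P θ ^ 2 ∂μ) + 2 * c ^ 2 * ∫ θ, Q θ ^ 2 ∂μ) := by
    rw [← e2, ← e3]; ring
  rw [h4, h5] at h3
  linarith

end B

theorem main (hT : S_TPB) (hR : S_ROTA) (hQ : S_RATIO) : Pool.Agent.N657.QL.S_TRANS := by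
  intro M δ hδ
  obtain ⟨e, he, he4, heδ⟩ : ∃ e : ℝ, 0 < e ∧ e ≤ 1 / 4 ∧ 4 * e ≤ δ :=
    ⟨min δ 1 / 4, by positivity, by linarith [min_le_right δ 1], by linarith [min_le_left δ 1]⟩
  have hC'0 : (0 : ℝ) ≤ (1 + e) * (1 + 1 / e) * 4 ^ M + (1 + 1 / e) * ((M : ℝ) ^ 2 * 4 ^ M) := by
    positivity
  refine ⟨((1 + e) * (1 + 1 / e) * 4 ^ M + (1 + 1 / e) * ((M : ℝ) ^ 2 * 4 ^ M)) +
    (M : ℝ) ^ 2 * (4 ^ M) ^ 2 / e, by positivity, ?_⟩
  intro d L _ U l μ f hU hl hE hf _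
  have := hE.prob
  have hAM : 0 ≤ AM M 1 := by unfold AM; positivity
  have hσ0 : 0 ≤ ∑ x, f x ^ 2 := by positivity
  have hnn : 0 ≤ (1 + δ) * AM M 1 * (∑ x, f x ^ 2) * Real.sqrt U / (Real.sqrt 2 * Real.sqrt l) +
        (((1 + e) * (1 + 1 / e) * 4 ^ M + (1 + 1 / e) * ((M : ℝ) ^ 2 * 4 ^ M)) +
    (M : ℝ) ^ 2 * (4 ^ M) ^ 2 / e) * (∑ x, f x ^ 2) * U /
          ((Fintype.card (Fin d → ZMod L) : ℝ) * l) := by positivity
  rcases Nat.eq_zero_or_pos M with hM | hM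
  · subst hM
    have h0 : ∀ θ, cM 0 (r2 θ) * Tf f θ ^ 2 = 0 := fun θ => by simp [cM]
    simp only [h0]
    simpa using hnn
  rcases hσ0.eq_or_lt with hσ | hσ
  · have hf0 : ∀ x, f x = 0 := by
      intro x
      have := (Finset.sum_eq_zero_iff_of_nonneg (fun x _ => sq_nonneg (f x))).1 hσ.symm x
        (Finset.mem_univ x)
      exact pow_eq_zero_iff (two_ne_zero) |>.1 this
    have h0 : ∀ θ, cM M (r2 θ) * Tf f θ ^ 2 = 0 := fun θ => by simp [Tf, Xf, Yf, hf0]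
    simp only [h0]
    simpa using hnn
  obtain ⟨-, hq, -⟩ := hQ.2 M hM
  obtain ⟨hX, hY, hmx, hmy, hr2, hNf, hLf, hTf⟩ := hT.mem f
  have hP : ((1 + my) ^ M : ((Fin d → ZMod L) → ℝ) → ℝ) ∈ TP (Fin d → ZMod L) :=
    pow_mem (add_mem (one_mem _) hmy) M
  have hPT : ((1 + my) ^ M * Tf f : ((Fin d → ZMod L) → ℝ) → ℝ) ∈ TP (Fin d → ZMod L) :=
    mul_mem hP hTf
  have hn : (0 : ℝ) < (Fintype.card (Fin d → ZMod L) : ℝ) := by exact_mod_cast Fintype.card_pos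
  have hA1 : 1 ≤ AM M 1 := (hq 1 zero_le_one le_rfl).1
  have hAr : ∀ θ : (Fin d → ZMod L) → ℝ, AM M (r2 θ) ≤ AM M 1 := fun θ =>
    (hq _ (hT.bounds f θ).1 (hT.bounds f θ).2.1).2.1
  obtain ⟨-, hR2, -, hR4⟩ := hR d L U μ hE M f
  -- the first integrals
  have hPP : ∀ θ : (Fin d → ZMod L) → ℝ, ((1 + my) ^ M : ((Fin d → ZMod L) → ℝ) → ℝ) θ ^ 2 =
      (1 + my θ) ^ (2 * M) := by
    intro θ
    rw [Pi.pow_apply, ← pow_mul, mul_comm M 2]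
    rfl
  have hAMT : (fun θ : (Fin d → ZMod L) → ℝ => AM M (r2 θ)) ∈ TP (Fin d → ZMod L) := by
    have : (fun θ : (Fin d → ZMod L) → ℝ => AM M (r2 θ)) =
        ∑ j ∈ Finset.range (M + 1),
          (((2 * M).choose (2 * j) : ℝ) * ((2 * j).choose j : ℝ) / 4 ^ j) • r2 ^ j := by
      funext θ
      simp [AM, Finset.sum_apply]
    rw [this]
    exact sum_mem fun j _ => Subalgebra.smul_mem _ (pow_mem hr2 j) _
  have iAM := intg hT hE _ hAMT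
  have iN := intg hT hE _ hNf
  have hPM : (fun θ : (Fin d → ZMod L) → ℝ => (1 + my θ) ^ (2 * M)) ∈ TP (Fin d → ZMod L) :=
    pow_mem (add_mem (one_mem _) hmy) (2 * M)
  have iPM := intg hT hE _ hPM
  have hPA : ∫ θ, (1 + my θ) ^ (2 * M) ∂μ ≤ AM M 1 := by
    rw [hR2]
    calc ∫ θ, AM M (r2 θ) ∂μ ≤ ∫ _θ, AM M 1 ∂μ :=
          integral_mono iAM (integrable_const _) hAr
      _ = AM M 1 := by simp
  have hIP : ∫ θ, ((1 + my) ^ M : ((Fin d → ZMod L) → ℝ) → ℝ) θ ^ 2 ∂μ ≤ AM M 1 := by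
    simp only [hPP]; exact hPA
  have hP4 : ∀ θ : (Fin d → ZMod L) → ℝ, (1 + my θ) ^ (2 * M) ≤ 4 ^ M := by
    intro θ
    obtain ⟨hb0, hb1⟩ := my_bd hT θ
    rw [pow_mul]
    apply pow_le_pow_left₀ (sq_nonneg _)
    nlinarith
  have hIQ : ∫ θ, ((1 + my) ^ M * Tf f : ((Fin d → ZMod L) → ℝ) → ℝ) θ ^ 2 ∂μ ≤
      4 ^ M * ∫ θ, Nf f θ ∂μ := by
    rw [← integral_const_mul]
    refine integral_mono (intg hT hE _ (pow_mem hPT 2)) (iN.const_mul _) fun θ => ?_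
    show (((1 + my) ^ M : ((Fin d → ZMod L) → ℝ) → ℝ) θ * Tf f θ) ^ 2 ≤ 4 ^ M * Nf f θ
    rw [mul_pow, hPP]
    exact mul_le_mul (hP4 θ) (T_le hT f θ) (sq_nonneg _) (by positivity)
  have hGP : ∫ θ, gr ((1 + my) ^ M) θ ∂μ ≤
      (M : ℝ) ^ 2 * 4 ^ M / (Fintype.card (Fin d → ZMod L) : ℝ) := by
    calc ∫ θ, gr ((1 + my) ^ M) θ ∂μ ≤
        ∫ _θ, (M : ℝ) ^ 2 * 4 ^ M / (Fintype.card (Fin d → ZMod L) : ℝ) ∂μ :=
          integral_mono (intg hT hE _ (hT.grmem _ hP)) (integrable_const _) (grP_le hT M)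
      _ = (M : ℝ) ^ 2 * 4 ^ M / (Fintype.card (Fin d → ZMod L) : ℝ) := by simp
  have hGQ : ∫ θ, gr ((1 + my) ^ M * Tf f) θ ∂μ ≤ (1 + e) ^ 2 * (∑ x, f x ^ 2) * AM M 1 +
      ((1 + e) * (1 + 1 / e) * 4 ^ M + (1 + 1 / e) * ((M : ℝ) ^ 2 * 4 ^ M)) *
        ((∫ θ, Nf f θ ∂μ) / (Fintype.card (Fin d → ZMod L) : ℝ)) := by
    have h1 := integral_mono (intg hT hE _ (hT.grmem _ hPT))
      ((iPM.const_mul ((1 + e) ^ 2 * (∑ x, f x ^ 2))).add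
        ((iN.div_const (Fintype.card (Fin d → ZMod L) : ℝ)).const_mul
          ((1 + e) * (1 + 1 / e) * 4 ^ M + (1 + 1 / e) * ((M : ℝ) ^ 2 * 4 ^ M))))
      (fun θ => grQ_le hT M f e he θ)
    refine le_trans h1 ?_
    rw [integral_add' (iPM.const_mul _) ((iN.div_const _).const_mul _), integral_const_mul,
      integral_const_mul, integral_div]
    gcongr
  have hI := hE.irb l f hl hf
  have hsU : 0 < Real.sqrt U := Real.sqrt_pos.2 hU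
  have hsl : 0 < Real.sqrt l := Real.sqrt_pos.2 hl
  have hs2 : 0 < Real.sqrt 2 := Real.sqrt_pos.2 (by norm_num)
  have hU2 : Real.sqrt U ^ 2 = U := Real.sq_sqrt hU.le
  have hl2 : Real.sqrt l ^ 2 = l := Real.sq_sqrt hl.le
  have h22 : Real.sqrt 2 ^ 2 = 2 := Real.sq_sqrt (by norm_num)
  have ht0 : 0 ≤ 2 * e * Real.sqrt U / (Real.sqrt l * (∑ x, f x ^ 2) * 4 ^ M) := by positivity
  have hk := key hT hE (Real.sqrt (2 * e * Real.sqrt U / (Real.sqrt l * (∑ x, f x ^ 2) * 4 ^ M))) l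
    (-(Real.sqrt (2 * e * Real.sqrt U / (Real.sqrt l * (∑ x, f x ^ 2) * 4 ^ M)) *
      (Real.sqrt l / (Real.sqrt 2 * Real.sqrt U)))) f hf _ _ hP hPT
  have hW : ∫ θ, Xf f θ * (((1 + my) ^ M : ((Fin d → ZMod L) → ℝ) → ℝ) θ *
      ((1 + my) ^ M * Tf f : ((Fin d → ZMod L) → ℝ) → ℝ) θ) ∂μ =
      -∫ θ, cM M (r2 θ) * Tf f θ ^ 2 ∂μ := by
    rw [← hR4]
    refine integral_congr_ae (Filter.Eventually.of_forall fun θ => ?_)
    show Xf f θ * (((1 + my) ^ M : ((Fin d → ZMod L) → ℝ) → ℝ) θ *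
      (((1 + my) ^ M : ((Fin d → ZMod L) → ℝ) → ℝ) θ * Tf f θ)) =
      Xf f θ * Tf f θ * (1 + my θ) ^ (2 * M)
    rw [← hPP]
    ring
  rw [hW] at hk
  have hts : Real.sqrt (2 * e * Real.sqrt U / (Real.sqrt l * (∑ x, f x ^ 2) * 4 ^ M)) ^ 2 =
      2 * e * Real.sqrt U / (Real.sqrt l * (∑ x, f x ^ 2) * 4 ^ M) := Real.sq_sqrt ht0
  have hfin := fin_alg (AM M 1) (∑ x, f x ^ 2) (Real.sqrt U) (Real.sqrt l) (Real.sqrt 2)
    (Fintype.card (Fin d → ZMod L) : ℝ) e δ (4 ^ M) ((M : ℝ) ^ 2)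
    ((1 + e) * (1 + 1 / e) * 4 ^ M + (1 + 1 / e) * ((M : ℝ) ^ 2 * 4 ^ M))
    (Real.sqrt l / (Real.sqrt 2 * Real.sqrt U))
    (2 * e * Real.sqrt U / (Real.sqrt l * (∑ x, f x ^ 2) * 4 ^ M))
    (∫ θ, Nf f θ ∂μ) (∫ θ, cM M (r2 θ) * Tf f θ ^ 2 ∂μ) _ _ _ _ hsU hsl hs2 h22 hσ hn he he4 heδ
    hA1 (by positivity) (by positivity) hC'0 rfl rfl hI hGP hGQ hIP hIQ ?_
  · rw [hU2, hl2] at hfin
    exact hfin
  · rw [hU2, hl2]
    rw [← hts]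
    refine le_trans (le_of_eq ?_) (le_trans hk (le_of_eq ?_))
    · ring
    · ring

end Pool.Agent.N691.QLT
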