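import Pool.Agent.N585.FP.Defs

/-!
# FP/3: the kernel of the twin reduction
-/

set_option autoImplicit false

namespace Pool.Agent.N691.FPKer

open Pool.Agent.N585.FP

theorem draw_mono {G : SimpleGraph ℕ} {U V : Finset ℕ} {side : ℕ → Bool} {p : ℕ → ℕ}
    (h : Draw G U side p) (hV : V ⊆ U) : Draw G V side p where
  inj := fun x hx y hy => h.inj x (hV hx) y (hV hy)
  bip := fun x hx y hy => h.bip x (hV hx) y (hV hy)
  fan := fun a b a₁ b₁ a₂ b₂ h0 h1 h2 =>
    h.fan a b a₁ b₁ a₂ b₂ ⟨hV h0.1, hV h0.2.1, h0.2.2⟩ ⟨hV h1.1, hV h1.2.1, h1.2.2⟩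
      ⟨hV h2.1, hV h2.2.1, h2.2.2⟩

theorem drawable_mono {G : SimpleGraph ℕ} {U V : Finset ℕ} (h : Drawable G U) (hV : V ⊆ U) :
    Drawable G V := by
  obtain ⟨s, p, h⟩ := h
  exact ⟨s, p, draw_mono h hV⟩

theorem ker_sub (G : SimpleGraph ℕ) (n : ℕ) : ker G n ⊆ Finset.range n := by
  classical
  exact Finset.filter_subset _ _

theorem mem_ker {G : SimpleGraph ℕ} {n x : ℕ} : x ∈ ker G n ↔ x < n ∧
    (open Classical in
      ((Finset.range x).filter fun y => Twin G (Finset.range n) x y).card < 3) := by
  classical
  unfold ker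
  rw [Finset.mem_filter, Finset.mem_range]

theorem twin_up {G : SimpleGraph ℕ} {n x y : ℕ} (hx : x ∈ ker G n) (hy : y ∈ ker G n)
    (h : Twin G (ker G n) x y) : Twin G (Finset.range n) x y := by
  classical
  intro z hz
  have hx' : x ∈ Finset.range n := ker_sub G n hx
  have hy' : y ∈ Finset.range n := ker_sub G n hy
  have hex : ∃ z', z' < n ∧ Twin G (Finset.range n) z z' :=
    ⟨z, Finset.mem_range.1 hz, fun w _ => Iff.rfl⟩
  obtain ⟨hz1, hz2⟩ := Nat.find_spec hex
  set z' := Nat.find hex with hz'
  have hzK : z' ∈ ker G n := by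
    rw [mem_ker]
    refine ⟨hz1, ?_⟩
    have : ((Finset.range z').filter fun y => Twin G (Finset.range n) z' y) = ∅ := by
      rw [Finset.filter_eq_empty_iff]
      intro w hw ht
      rw [Finset.mem_range] at hw
      exact Nat.find_min hex hw ⟨hw.trans hz1, fun q hq => (hz2 q hq).trans (ht q hq)⟩
    convert_to (Finset.card ((Finset.range z').filter fun y => Twin G (Finset.range n) z' y)) < 3
    rw [this]
    simp
  calc G.Adj x z ↔ G.Adj z x := G.adj_comm _ _
    _ ↔ G.Adj z' x := hz2 x hx'
    _ ↔ G.Adj x z' := G.adj_comm _ _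
    _ ↔ G.Adj y z' := h z' hzK
    _ ↔ G.Adj z' y := G.adj_comm _ _
    _ ↔ G.Adj z y := (hz2 y hy').symm
    _ ↔ G.Adj y z := G.adj_comm _ _

theorem stmKer (h : StmTwin) : StmKer := by
  classical
  intro G n
  refine ⟨⟨fun hd => drawable_mono hd (ker_sub G n), fun hd => ?_⟩, ?_⟩
  · have key : ∀ m : ℕ, m ≤ n → Drawable G (ker G n ∪ Finset.range m) := by
      intro m
      induction m with
      | zero =>
        intro _
        simpa using hd
      | succ m ih =>
        intro hm
        have e : ker G n ∪ Finset.range (m + 1) = insert m (ker G n ∪ Finset.range m) := by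
          rw [Finset.range_add_one, Finset.union_insert]
        rw [e]
        have ih' := ih (by omega)
        by_cases hmU : m ∈ ker G n ∪ Finset.range m
        · rwa [Finset.insert_eq_of_mem hmU]
        have hmK : m ∉ ker G n := fun hh => hmU (Finset.mem_union_left _ hh)
        rw [mem_ker, not_and, not_lt] at hmK
        have hc := hmK (by omega)
        have hc' : 2 < ((Finset.range m).filter fun y => Twin G (Finset.range n) m y).card := by
          have : 3 ≤ ((Finset.range m).filter fun y => Twin G (Finset.range n) m y).card := by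
            convert hc
          omega
        obtain ⟨d₁, h1, d₂, h2, d₃, h3, h12, h13, h23⟩ := Finset.two_lt_card.1 hc'
        rw [Finset.mem_filter] at h1 h2 h3
        have hsub : insert m (ker G n ∪ Finset.range m) ⊆ Finset.range n := by
          intro q hq
          rw [Finset.mem_insert, Finset.mem_union, Finset.mem_range] at hq
          rw [Finset.mem_range]
          rcases hq with rfl | hq | hq
          · omega
          · exact Finset.mem_range.1 (ker_sub G n hq)
          · omega
        exact h G _ m d₁ d₂ d₃ hmU (Finset.mem_union_right _ h1.1) (Finset.mem_union_right _ h2.1)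
          (Finset.mem_union_right _ h3.1) h12 h13 h23 (fun z hz => h1.2 z (hsub hz))
          (fun z hz => h2.2 z (hsub hz)) (fun z hz => h3.2 z (hsub hz)) ih'
    have := key n le_rfl
    rwa [Finset.union_eq_right.2 (ker_sub G n)] at this
  · intro S hS hT
    by_contra hc
    push Not at hc
    have hne : S.Nonempty := Finset.card_pos.1 (by omega)
    set M := S.max' hne with hM
    have hMS : M ∈ S := S.max'_mem hne
    have hMK := hS hMS
    have hlt := (mem_ker.1 hMK).2
    have hsub : S.erase M ⊆ (Finset.range M).filter fun y => Twin G (Finset.range n) M y := by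
      intro q hq
      rw [Finset.mem_erase] at hq
      rw [Finset.mem_filter, Finset.mem_range]
      exact ⟨lt_of_le_of_ne (S.le_max' q hq.2) hq.1, twin_up hMK (hS hq.2) (hT M hMS q hq.2)⟩
    have h1 := Finset.card_le_card hsub
    rw [Finset.card_erase_of_mem hMS] at h1
    have h2 : ((Finset.range M).filter fun y => Twin G (Finset.range n) M y).card < 3 := by
      convert hlt
    omega

end Pool.Agent.N691.FPKer
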