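import Pool.Agent.N699.PC.Stm

/-! The coefficients of the Hecke type double sum (leaves HCO and IDEA of project Q3). -/

set_option autoImplicit false

namespace Pool.Agent.N691.Q3

open Pool.Agent.N699.PC Finset PowerSeries

theorem coeff_cXm (a : ℤ) (m n : ℕ) (p : ℤ⟦X⟧) :
    coeff n (p * (C a * X ^ m)) = if m ≤ n then a * coeff (n - m) p else 0 := by
  have e : p * (C a * X ^ m) = C a * (p * X ^ m) := by ring
  rw [e, coeff_C_mul, coeff_mul_X_pow']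
  split_ifs <;> simp

theorem coeff_cX (a : ℤ) (m n : ℕ) :
    coeff n (C a * X ^ m : ℤ⟦X⟧) = if m = n then a else 0 := by
  rw [coeff_C_mul, coeff_X_pow]
  by_cases h : m = n
  · rw [if_pos h, if_pos h.symm, mul_one]
  · rw [if_neg h, if_neg (fun h' => h h'.symm), mul_zero]

theorem neg_pow_C (k : ℕ) : ((-1 : ℤ⟦X⟧)) ^ k = C ((-1 : ℤ) ^ k) := by
  rw [map_pow, map_neg, map_one]

/-- one term -/
theorem term (n k s : ℕ) :
    coeff n (C (w k) * (-1) ^ k * X ^ (k ^ 2 + 1) * ((-1 : ℤ⟦X⟧) ^ s *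
      X ^ (2 * (3 * s ^ 2 + 2 * s + k * (3 * s + 1))) * (1 + X ^ (2 * (2 * s + 1 + k))))) =
    w k * (-1) ^ (k + s) *
  ((if 1 + k ^ 2 + 6 * s ^ 2 + 4 * s + (6 * s + 2) * k = n then 1 else 0) +
   (if 3 + k ^ 2 + 6 * s ^ 2 + 8 * s + (6 * s + 4) * k = n then 1 else 0)) := by
  have e : C (w k) * (-1) ^ k * X ^ (k ^ 2 + 1) * ((-1 : ℤ⟦X⟧) ^ s *
      X ^ (2 * (3 * s ^ 2 + 2 * s + k * (3 * s + 1))) * (1 + X ^ (2 * (2 * s + 1 + k)))) =
      C (w k * (-1) ^ (k + s)) * X ^ (1 + k ^ 2 + 6 * s ^ 2 + 4 * s + (6 * s + 2) * k) +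
      C (w k * (-1) ^ (k + s)) * X ^ (3 + k ^ 2 + 6 * s ^ 2 + 8 * s + (6 * s + 4) * k) := by
    have e1 : (X : ℤ⟦X⟧) ^ (1 + k ^ 2 + 6 * s ^ 2 + 4 * s + (6 * s + 2) * k) =
        X ^ (k ^ 2 + 1) * X ^ (2 * (3 * s ^ 2 + 2 * s + k * (3 * s + 1))) := by
      rw [← pow_add]
      congr 1
      ring
    have e2 : (X : ℤ⟦X⟧) ^ (3 + k ^ 2 + 6 * s ^ 2 + 8 * s + (6 * s + 4) * k) =
        X ^ (k ^ 2 + 1) * X ^ (2 * (3 * s ^ 2 + 2 * s + k * (3 * s + 1))) *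
          X ^ (2 * (2 * s + 1 + k)) := by
      rw [← pow_add, ← pow_add]
      congr 1
      ring
    have e3 : (C (w k * (-1) ^ (k + s)) : ℤ⟦X⟧) = C (w k) * C ((-1) ^ k) * C ((-1) ^ s) := by
      rw [← map_mul, ← map_mul]
      congr 1
      rw [pow_add]
      ring
    rw [e1, e2, e3, neg_pow_C, neg_pow_C]
    ring
  rw [e, map_add, coeff_cX, coeff_cX]
  split_ifs <;> ring

/-- the terms with `k > n` or `s > n` vanish -/
theorem term_zero (n k s : ℕ) (h : n < k ∨ n < s) :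
    w k * (-1) ^ (k + s) *
  ((if 1 + k ^ 2 + 6 * s ^ 2 + 4 * s + (6 * s + 2) * k = n then 1 else 0) +
   (if 3 + k ^ 2 + 6 * s ^ 2 + 8 * s + (6 * s + 4) * k = n then 1 else 0)) = (0 : ℤ) := by
  have hk : k ≤ k ^ 2 := Nat.le_self_pow (by norm_num) k
  have h1 : ¬ (1 + k ^ 2 + 6 * s ^ 2 + 4 * s + (6 * s + 2) * k = n) := by
    intro h'
    have := Nat.zero_le ((6 * s + 2) * k)
    have := Nat.zero_le (6 * s ^ 2)
    omega
  have h2 : ¬ (3 + k ^ 2 + 6 * s ^ 2 + 8 * s + (6 * s + 4) * k = n) := by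
    intro h'
    have := Nat.zero_le ((6 * s + 4) * k)
    have := Nat.zero_le (6 * s ^ 2)
    omega
  rw [if_neg h1, if_neg h2]
  simp

theorem t_HCO : Pool.Agent.N699.PC.HCO := by
  intro n N hN
  unfold HN h A
  rw [map_sum]
  have e : ∀ k ∈ range N, coeff n (C (w k) * (-1) ^ k * X ^ (k ^ 2 + 1) *
      ∑ s ∈ range N, (-1 : ℤ⟦X⟧) ^ s * X ^ (2 * (3 * s ^ 2 + 2 * s + k * (3 * s + 1))) *
        (1 + X ^ (2 * (2 * s + 1 + k)))) = ∑ s ∈ range (n + 1), w k * (-1) ^ (k + s) *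
  ((if 1 + k ^ 2 + 6 * s ^ 2 + 4 * s + (6 * s + 2) * k = n then 1 else 0) +
   (if 3 + k ^ 2 + 6 * s ^ 2 + 8 * s + (6 * s + 4) * k = n then 1 else 0)) := by
    intro k _
    rw [mul_sum, map_sum]
    simp only [term]
    symm
    refine sum_subset (range_mono (by omega)) fun s _ hs => term_zero n k s (Or.inr ?_)
    simpa using hs
  rw [sum_congr rfl e]
  symm
  refine sum_subset (range_mono (by omega)) fun k _ hk => ?_
  refine sum_eq_zero fun s _ => term_zero n k s (Or.inl ?_)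
  simpa using hk

theorem t_IDEA : Pool.Agent.N699.PC.IDEA := by
  intro hM hS hH n
  have h1 := hM (n + 1) (3 * (n + 1) + 1) le_rfl
  rw [X_pow_dvd_iff] at h1
  have h2 := h1 n (by omega)
  rw [map_sub, sub_eq_zero, hH n (n + 1) (by omega)] at h2
  rw [← h2]
  unfold phi
  rw [mul_sum, map_sum]
  have e : ∀ k ∈ range (3 * (n + 1) + 1 + 1), coeff n (CN (3 * (n + 1) + 1) *
      (C (w k) * (-1) ^ k * X ^ (k ^ 2))) =
      (if k ^ 2 ≤ n then w k * (-1) ^ k * c (n - k ^ 2) else 0) := by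
    intro k _
    rw [neg_pow_C, ← map_mul, coeff_cXm]
    split_ifs with hk
    · rw [hS (n - k ^ 2) (3 * (n + 1) + 1) (by omega)]
    · rfl
  rw [sum_congr rfl e]
  refine sum_subset (range_mono (by omega)) fun k _ hk => ?_
  have hk' : n < k := by simpa using hk
  have : k ≤ k ^ 2 := Nat.le_self_pow (by norm_num) k
  rw [if_neg (by omega)]

end Pool.Agent.N691.Q3
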