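import Pool.Agent.N657.QL.Stm4

/-!
# Project QL, part CPL: a complete orthonormal system of eigenfunctions
-/

namespace Pool.Agent.N691.QLC

open Filter Topology
open scoped InnerProductSpace
open Pool.Agent.N657.QR Pool.Agent.N657.QL

/-- A compact symmetric operator has an orthonormal basis of eigenvectors. -/
theorem eigbasis {E : Type} [NormedAddCommGroup E] [InnerProductSpace ℝ E] [CompleteSpace E]
    (R : E →L[ℝ] E) (hc : IsCompactOperator R) (hs : (R : E →ₗ[ℝ] E).IsSymmetric) :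
    ∃ (ι : Type) (b : HilbertBasis ι ℝ E) (μ : ι → ℝ), ∀ j, R (b j) = μ j • b j := by
  classical
  have hclosed : ∀ μ : ℝ, IsClosed (Module.End.eigenspace (R : E →ₗ[ℝ] E) μ : Set E) := by
    intro μ
    have e : (Module.End.eigenspace (R : E →ₗ[ℝ] E) μ : Set E) = {x | R x = μ • x} := by
      ext x
      exact Module.End.mem_eigenspace_iff
    rw [e]
    exact isClosed_eq R.continuous (continuous_const_smul μ)
  have hcomp : ∀ μ : ℝ, CompleteSpace (Module.End.eigenspace (R : E →ₗ[ℝ] E) μ) :=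
    fun μ => (hclosed μ).completeSpace_coe
  have hb : ∀ μ : ℝ, ∃ (w : Set (Module.End.eigenspace (R : E →ₗ[ℝ] E) μ))
      (b : HilbertBasis w ℝ (Module.End.eigenspace (R : E →ₗ[ℝ] E) μ)), ⇑b = Subtype.val :=
    fun μ => exists_hilbertBasis ℝ _
  choose w b _ using hb
  have hort := (LinearMap.IsSymmetric.orthogonalFamily_eigenspaces hs).orthonormal_sigma_orthonormal
    (fun μ => (b μ).orthonormal)
  have hbot : (Submodule.span ℝ (Set.range fun a : Σ μ : ℝ, w μ =>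
      (Module.End.eigenspace (R : E →ₗ[ℝ] E) a.1).subtypeₗᵢ (b a.1 a.2)))ᗮ = ⊥ := by
    rw [eq_bot_iff, ← ContinuousLinearMap.orthogonalComplement_iSup_eigenspaces_eq_bot hc hs]
    intro x hx
    rw [Submodule.mem_orthogonal] at hx ⊢
    have h1 : ∀ μ, Module.End.eigenspace (R : E →ₗ[ℝ] E) μ ≤ (ℝ ∙ x)ᗮ := by
      intro μ y hy
      rw [Submodule.mem_orthogonal_singleton_iff_inner_left]
      have h2 := (b μ).hasSum_repr ⟨y, hy⟩
      have h3 := (h2.mapL (Submodule.subtypeL _)).mapL (innerSL ℝ x)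
      have h4 : (fun i => (innerSL ℝ x) ((Submodule.subtypeL
          (Module.End.eigenspace (R : E →ₗ[ℝ] E) μ))
          ((b μ).repr ⟨y, hy⟩ i • (b μ) i))) = fun _ => (0 : ℝ) := by
        funext i
        have h5 := hx _ (Submodule.subset_span ⟨⟨μ, i⟩, rfl⟩)
        rw [map_smul, map_smul, innerSL_apply_apply, real_inner_comm, smul_eq_mul]
        exact mul_eq_zero_of_right _ h5
      rw [h4] at h3
      have h6 := h3.unique hasSum_zero
      rw [real_inner_comm]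
      exact h6
    have h2 : (⨆ μ, Module.End.eigenspace (R : E →ₗ[ℝ] E) μ) ≤ (ℝ ∙ x)ᗮ := iSup_le h1
    intro u hu
    exact Submodule.mem_orthogonal_singleton_iff_inner_left.1 (h2 hu)
  refine ⟨Σ μ : ℝ, w μ, HilbertBasis.mkOfOrthogonalEqBot hort hbot, fun a => a.1, fun a => ?_⟩
  rw [HilbertBasis.coe_mkOfOrthogonalEqBot]
  exact Module.End.mem_eigenspace_iff.1 (b a.1 a.2).2

section L2

variable {I : Type}

/-- The Hilbert space. -/
abbrev HI (I : Type) : Type := lp (fun _ : I => ℝ) 2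

theorem two_pos : 0 < (2 : ENNReal).toReal := by norm_num

theorem mem_iff (f : I → ℝ) : Memℓp f 2 ↔ Summable (fun i => f i ^ 2) := by
  rw [memℓp_gen_iff two_pos]
  refine summable_congr fun i => ?_
  rw [ENNReal.toReal_ofNat, Real.rpow_two, Real.norm_eq_abs, sq_abs]

theorem sm (x : HI I) : Summable (fun i => (x : I → ℝ) i ^ 2) := (mem_iff _).1 (lp.memℓp x)

theorem inn (x y : HI I) : ⟪x, y⟫_ℝ = ∑' i, (x : I → ℝ) i * (y : I → ℝ) i := by
  rw [lp.inner_eq_tsum]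
  refine tsum_congr fun i => ?_
  rw [real_inner_comm]
  rfl

theorem nsq (x : HI I) : ‖x‖ ^ 2 = ∑' i, (x : I → ℝ) i ^ 2 := by
  rw [← real_inner_self_eq_norm_sq, inn]
  exact tsum_congr fun i => (pow_two _).symm

theorem mkOp (A : (I → ℝ) →ₗ[ℝ] (I → ℝ)) (C : ℝ) (hC : 0 ≤ C)
    (h : ∀ f : I → ℝ, Summable (fun i => f i ^ 2) →
      Summable (fun i => A f i ^ 2) ∧ ∑' i, A f i ^ 2 ≤ C ^ 2 * ∑' i, f i ^ 2) :
    ∃ B : HI I →L[ℝ] HI I, (∀ (x : HI I) (i : I), (B x : I → ℝ) i = A (x : I → ℝ) i) ∧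
      ‖B‖ ≤ C := by
  let B0 : HI I →ₗ[ℝ] HI I :=
    { toFun := fun x => ⟨A (x : I → ℝ), (mem_iff _).2 (h _ (sm x)).1⟩
      map_add' := fun x y => by
        apply Subtype.ext
        exact map_add A (x : I → ℝ) (y : I → ℝ)
      map_smul' := fun c x => by
        apply Subtype.ext
        exact map_smul A c (x : I → ℝ) }
  have hB : ∀ x, ‖B0 x‖ ≤ C * ‖x‖ := by
    intro x
    rw [← pow_le_pow_iff_left₀ (norm_nonneg _) (mul_nonneg hC (norm_nonneg _)) two_ne_zero,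
      mul_pow, nsq, nsq]
    exact (h _ (sm x)).2
  exact ⟨B0.mkContinuous C hB, fun x i => rfl, B0.mkContinuous_norm_le hC hB⟩

/-- Diagonal operators. -/
theorem diag (g : I → ℝ) (C : ℝ) (hC : 0 ≤ C) (hg : ∀ i, |g i| ≤ C) :
    ∃ B : HI I →L[ℝ] HI I, (∀ (x : HI I) (i : I), (B x : I → ℝ) i = g i * (x : I → ℝ) i) ∧
      ‖B‖ ≤ C := by
  let A : (I → ℝ) →ₗ[ℝ] (I → ℝ) :=
    { toFun := fun f i => g i * f i
      map_add' := fun f f' => by funext i; simp [mul_add]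
      map_smul' := fun c f => by funext i; simp [mul_left_comm] }
  refine mkOp A C hC fun f hf => ?_
  have h1 : ∀ i, A f i ^ 2 ≤ C ^ 2 * f i ^ 2 := by
    intro i
    show (g i * f i) ^ 2 ≤ C ^ 2 * f i ^ 2
    rw [mul_pow]
    have h2 : g i ^ 2 ≤ C ^ 2 := by
      rw [← sq_abs]
      exact pow_le_pow_left₀ (abs_nonneg _) (hg i) 2
    exact mul_le_mul_of_nonneg_right h2 (sq_nonneg _)
  have h2 : Summable (fun i => A f i ^ 2) :=
    Summable.of_nonneg_of_le (fun i => sq_nonneg _) h1 (hf.mul_left _)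
  refine ⟨h2, ?_⟩
  rw [← tsum_mul_left]
  exact h2.tsum_le_tsum h1 (hf.mul_left _)

theorem diag_symm {g : I → ℝ} {S : HI I →L[ℝ] HI I}
    (hS : ∀ (x : HI I) (i : I), (S x : I → ℝ) i = g i * (x : I → ℝ) i) (x y : HI I) :
    ⟪S x, y⟫_ℝ = ⟪x, S y⟫_ℝ := by
  rw [inn, inn]
  refine tsum_congr fun i => ?_
  rw [hS, hS]
  ring

/-- Permutations. -/
theorem perm (σ : I ≃ I) :
    ∃ B : HI I →L[ℝ] HI I, (∀ (x : HI I) (i : I), (B x : I → ℝ) i = (x : I → ℝ) (σ i)) ∧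
      ‖B‖ ≤ 1 := by
  let A : (I → ℝ) →ₗ[ℝ] (I → ℝ) :=
    { toFun := fun f i => f (σ i)
      map_add' := fun f f' => rfl
      map_smul' := fun c f => rfl }
  refine mkOp A 1 zero_le_one fun f hf => ⟨?_, ?_⟩
  · exact (σ.summable_iff (f := fun i => f i ^ 2)).2 hf
  · rw [one_pow, one_mul]
    exact (σ.tsum_eq (fun i => f i ^ 2)).le

theorem perm_symm {σ : I ≃ I} {P P' : HI I →L[ℝ] HI I}
    (hP : ∀ (x : HI I) (i : I), (P x : I → ℝ) i = (x : I → ℝ) (σ i))
    (hP' : ∀ (x : HI I) (i : I), (P' x : I → ℝ) i = (x : I → ℝ) (σ.symm i)) (x y : HI I) :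
    ⟪P x, y⟫_ℝ = ⟪x, P' y⟫_ℝ := by
  rw [inn, inn, ← σ.symm.tsum_eq]
  refine tsum_congr fun i => ?_
  rw [hP, hP', σ.apply_symm_apply]

/-- Compactness of diagonal operators. -/
theorem diag_compact {g : I → ℝ} {S : HI I →L[ℝ] HI I}
    (hS : ∀ (x : HI I) (i : I), (S x : I → ℝ) i = g i * (x : I → ℝ) i)
    (hfin : ∀ ε : ℝ, 0 < ε → {i | ε < |g i|}.Finite) : IsCompactOperator S := by
  classical
  let e : I → HI I := fun i => lp.single 2 i (1 : ℝ)
  have he : ∀ i j, (e i : I → ℝ) j = if j = i then 1 else 0 := by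
    intro i j
    show (lp.single 2 i (1 : ℝ) : HI I).1 j = _
    rw [lp.coeFn_single, Pi.single_apply]
  have hie : ∀ i (x : HI I), ⟪e i, x⟫_ℝ = (x : I → ℝ) i := by
    intro i x
    rw [inn, tsum_eq_single i]
    · rw [he, if_pos rfl, one_mul]
    · intro j hj
      rw [he, if_neg hj, zero_mul]
  let r1 : I → (HI I →L[ℝ] HI I) := fun i => (innerSL ℝ (e i)).smulRight (e i)
  have hr1 : ∀ i (x : HI I) j, (r1 i x : I → ℝ) j = if j = i then (x : I → ℝ) i else 0 := by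
    intro i x j
    show ((⟪e i, x⟫_ℝ • e i : HI I) : I → ℝ) j = _
    rw [hie]
    show (x : I → ℝ) i * (e i : I → ℝ) j = _
    rw [he]
    split_ifs <;> simp
  have hrc : ∀ i, IsCompactOperator (r1 i) := by
    intro i
    exact (isCompactOperator_of_locallyCompactSpace_dom (innerSL ℝ (e i))).clm_comp
      (ContinuousLinearMap.toSpanSingleton ℝ (e i))
  have hpos : ∀ k : ℕ, (0 : ℝ) < 1 / ((k : ℝ) + 1) := fun k => by positivity
  let Ak : ℕ → Finset I := fun k => (hfin _ (hpos k)).toFinset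
  let Fk : ℕ → (HI I →L[ℝ] HI I) := fun k => ∑ i ∈ Ak k, g i • r1 i
  have hFk : ∀ k (x : HI I) j, (Fk k x : I → ℝ) j = if j ∈ Ak k then g j * (x : I → ℝ) j else 0 := by
    intro k x j
    have h1 : (Fk k x : I → ℝ) j = ∑ i ∈ Ak k, g i * (r1 i x : I → ℝ) j := by
      show ((∑ i ∈ Ak k, g i • r1 i) x : HI I).1 j = _
      rw [sum_apply, lp.coeFn_sum, Finset.sum_apply]
      rfl
    rw [h1]
    simp only [hr1, mul_ite, mul_zero]
    rw [Finset.sum_ite_eq]
  have hd : ∀ k, ‖Fk k - S‖ ≤ 1 / ((k : ℝ) + 1) := by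
    intro k
    refine ContinuousLinearMap.opNorm_le_bound _ (hpos k).le fun x => ?_
    rw [← pow_le_pow_iff_left₀ (norm_nonneg _) (mul_nonneg (hpos k).le (norm_nonneg _))
      two_ne_zero, mul_pow, nsq, nsq, ← tsum_mul_left]
    have h1 : ∀ j, (((Fk k - S) x : HI I) : I → ℝ) j ^ 2 ≤
        (1 / ((k : ℝ) + 1)) ^ 2 * (x : I → ℝ) j ^ 2 := by
      intro j
      have h2 : (((Fk k - S) x : HI I) : I → ℝ) j =
          (Fk k x : I → ℝ) j - (S x : I → ℝ) j := rfl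
      rw [h2, hFk, hS]
      split_ifs with hj
      · rw [sub_self, zero_pow two_ne_zero]
        positivity
      · rw [zero_sub, neg_sq, mul_pow]
        have h3 : |g j| ≤ 1 / ((k : ℝ) + 1) := by
          by_contra hcon
          exact hj ((hfin _ (hpos k)).mem_toFinset.2 (not_le.1 hcon))
        have h4 : g j ^ 2 ≤ (1 / ((k : ℝ) + 1)) ^ 2 := by
          rw [← sq_abs]
          exact pow_le_pow_left₀ (abs_nonneg _) h3 2
        exact mul_le_mul_of_nonneg_right h4 (sq_nonneg _)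
    exact (sm _).tsum_le_tsum h1 ((sm x).mul_left _)
  have ht : Tendsto Fk atTop (𝓝 S) := by
    rw [tendsto_iff_norm_sub_tendsto_zero]
    exact squeeze_zero (fun k => norm_nonneg _) hd tendsto_one_div_add_atTop_nhds_zero_nat
  refine isCompactOperator_of_tendsto ht (Eventually.of_forall fun k => ?_)
  have hmem : Fk k ∈ compactOperator (RingHom.id ℝ) (HI I) (HI I) :=
    Submodule.sum_mem _ fun i _ => Submodule.smul_mem _ _ (hrc i)
  exact hmem

/-- Eigenvectors of `1 / g² - T`. -/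
theorem resolvent (g : I → ℝ) (C : ℝ) (hg : ∀ i, 0 < g i) (hC : 0 ≤ C) (hgC : ∀ i, g i ≤ C)
    (hfin : ∀ ε : ℝ, 0 < ε → {i | ε < |g i|}.Finite) (T : HI I →L[ℝ] HI I)
    (hTs : ∀ x y, ⟪T x, y⟫_ℝ = ⟪x, T y⟫_ℝ) (hTC : C * (‖T‖ * C) < 1) :
    ∃ (ι : Type) (b : HilbertBasis ι ℝ (HI I)) (ν : ι → ℝ), ∀ j,
      Summable (fun i => ((b j : I → ℝ) i / g i) ^ 2) ∧
      ∀ i, (b j : I → ℝ) i / g i ^ 2 - (T (b j) : I → ℝ) i = ν j * (b j : I → ℝ) i := by
  obtain ⟨S, hS, hSC⟩ := diag g C hC (fun i => by rw [abs_of_pos (hg i)]; exact hgC i)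
  have hSs := diag_symm hS
  have hSc := diag_compact hS hfin
  have hK : ‖S.comp (T.comp S)‖ < 1 := by
    refine lt_of_le_of_lt ?_ hTC
    refine le_trans (ContinuousLinearMap.opNorm_comp_le _ _) ?_
    refine mul_le_mul hSC ?_ (norm_nonneg _) hC
    refine le_trans (ContinuousLinearMap.opNorm_comp_le _ _) ?_
    exact mul_le_mul_of_nonneg_left hSC (norm_nonneg _)
  obtain ⟨Q, hQ⟩ : ∃ Q : HI I →L[ℝ] HI I, ∀ x, Q x - S (T (S (Q x))) = x := by
    refine ⟨((Units.oneSub _ hK)⁻¹ : (HI I →L[ℝ] HI I)ˣ), fun x => ?_⟩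
    have h1 := (Units.oneSub _ hK).mul_inv
    rw [Units.val_oneSub] at h1
    have h2 := congrArg (fun B : HI I →L[ℝ] HI I => B x) h1
    exact h2
  have hQs : ∀ x y, ⟪Q x, y⟫_ℝ = ⟪x, Q y⟫_ℝ := by
    intro x y
    conv_lhs => rw [← hQ y]
    conv_rhs => rw [← hQ x]
    rw [inner_sub_right, inner_sub_left, hSs, hTs, hSs]
  have hRs : ((S.comp (Q.comp S) : HI I →L[ℝ] HI I) : HI I →ₗ[ℝ] HI I).IsSymmetric := by
    intro x y
    show ⟪S (Q (S x)), y⟫_ℝ = ⟪x, S (Q (S y))⟫_ℝ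
    rw [hSs, hQs, hSs]
  have hRc : IsCompactOperator (S.comp (Q.comp S)) := hSc.comp_clm (Q.comp S)
  obtain ⟨ι, b, μ, hb⟩ := eigbasis _ hRc hRs
  refine ⟨ι, b, fun j => 1 / μ j, fun j => ?_⟩
  have h1 : S (Q (S (b j))) = μ j • b j := hb j
  have h2 := hQ (S (b j))
  have h3 : ∀ i, g i * (Q (S (b j)) : I → ℝ) i = μ j * (b j : I → ℝ) i := by
    intro i
    rw [← hS, h1]
    rfl
  have h4 : ∀ i, (Q (S (b j)) : I → ℝ) i - g i * (μ j * (T (b j) : I → ℝ) i) =
      g i * (b j : I → ℝ) i := by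
    intro i
    have h5 := congrArg (fun x : HI I => (x : I → ℝ) i) h2
    rw [h1, map_smul] at h5
    rw [← hS (b j) i, ← h5]
    show _ = (Q (S (b j)) : I → ℝ) i - (S (μ j • T (b j)) : I → ℝ) i
    rw [hS]
    rfl
  have hμ : μ j ≠ 0 := by
    intro h0
    have h6 : ∀ i, (b j : I → ℝ) i = 0 := by
      intro i
      have h7 := h3 i
      have h8 := h4 i
      rw [h0, zero_mul] at h7
      rw [h0, zero_mul, mul_zero, sub_zero] at h8
      have h9 := (mul_eq_zero.1 h7).resolve_left (hg i).ne'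
      rw [h9] at h8
      exact (mul_eq_zero.1 h8.symm).resolve_left (hg i).ne'
    have h10 : b j = 0 := by
      apply Subtype.ext
      funext i
      exact h6 i
    have h11 := b.orthonormal.1 j
    rw [h10, norm_zero] at h11
    exact zero_ne_one h11
  refine ⟨?_, fun i => ?_⟩
  · have h5 : (fun i => ((b j : I → ℝ) i / g i) ^ 2) =
        fun i => (1 / μ j) ^ 2 * (Q (S (b j)) : I → ℝ) i ^ 2 := by
      funext i
      have h6 := h3 i
      have h7 := (hg i).ne'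
      have h8 : (Q (S (b j)) : I → ℝ) i = μ j * (b j : I → ℝ) i / g i := by
        rw [eq_div_iff h7, mul_comm]
        exact h6
      rw [h8]
      field_simp
    rw [h5]
    exact (sm _).mul_left _
  · have h6 := h3 i
    have h7 := (hg i).ne'
    have h8 : (Q (S (b j)) : I → ℝ) i = μ j * (b j : I → ℝ) i / g i := by
      rw [eq_div_iff h7, mul_comm]
      exact h6
    have h9 := h4 i
    rw [h8] at h9
    field_simp at h9 ⊢
    linear_combination h9

end L2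

section Conc

set_option linter.unusedSectionVars false

variable {V : Type} [Fintype V] [DecidableEq V]

theorem tot_hp (x y : V) (n : V → ℤ) : tot (hp x y n) = tot n := by
  unfold tot hp dl
  simp only [Pi.add_apply, Pi.sub_apply, Finset.sum_add_distrib, Finset.sum_sub_distrib,
    Finset.sum_pi_single', Finset.mem_univ, if_true]
  ring

theorem hp_hp (x y : V) (n : V → ℤ) : hp x y (hp y x n) = n := by
  unfold hp
  abel

/-- The configurations of the neutral sector. -/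
abbrev I0 (V : Type) [Fintype V] : Type := {n : V → ℤ // tot n = 0}

/-- Hops. -/
def hpE (x y : V) : I0 V ≃ I0 V where
  toFun n := ⟨hp x y n.1, (tot_hp x y n.1).trans n.2⟩
  invFun n := ⟨hp y x n.1, (tot_hp y x n.1).trans n.2⟩
  left_inv n := Subtype.ext (hp_hp y x n.1)
  right_inv n := Subtype.ext (hp_hp x y n.1)

/-- The hopping operator. -/
theorem hop (w : V → V → ℝ) : ∃ T : HI (I0 V) →L[ℝ] HI (I0 V),
    (∀ (f : HI (I0 V)) (n : I0 V), (T f : I0 V → ℝ) n =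
      (∑ x, ∑ y, w x y * ((f : I0 V → ℝ) (hpE x y n) + (f : I0 V → ℝ) (hpE y x n))) / 2) ∧
    ∀ f f', ⟪T f, f'⟫_ℝ = ⟪f, T f'⟫_ℝ := by
  have hP : ∀ x y : V, ∃ B : HI (I0 V) →L[ℝ] HI (I0 V),
      (∀ (f : HI (I0 V)) (i : I0 V), (B f : I0 V → ℝ) i = (f : I0 V → ℝ) (hpE x y i)) ∧
      ‖B‖ ≤ 1 := fun x y => perm (hpE x y)
  choose P hP _ using hP
  have hs : ∀ x y f f', ⟪P x y f, f'⟫_ℝ = ⟪f, P y x f'⟫_ℝ := fun x y f f' =>
    perm_symm (σ := hpE x y) (hP x y) (fun g i => hP y x g i) f f'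
  have hval : ∀ f : HI (I0 V), (∑ x, ∑ y, (w x y / 2) • (P x y + P y x)) f =
      ∑ x, ∑ y, (w x y / 2) • (P x y f + P y x f) := by
    intro f
    simp only [sum_apply, smul_apply, add_apply]
  refine ⟨∑ x, ∑ y, (w x y / 2) • (P x y + P y x), ?_, ?_⟩
  · intro f n
    rw [hval, Finset.sum_div]
    rw [lp.coeFn_sum, Finset.sum_apply]
    refine Finset.sum_congr rfl fun x _ => ?_
    rw [lp.coeFn_sum, Finset.sum_apply, Finset.sum_div]
    refine Finset.sum_congr rfl fun y _ => ?_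
    show w x y / 2 * ((P x y f : I0 V → ℝ) n + (P y x f : I0 V → ℝ) n) = _
    rw [hP, hP]
    ring
  · intro f f'
    rw [hval, hval, sum_inner, inner_sum]
    refine Finset.sum_congr rfl fun x _ => ?_
    rw [sum_inner, inner_sum]
    refine Finset.sum_congr rfl fun y _ => ?_
    rw [real_inner_smul_left, real_inner_smul_right, inner_add_left, inner_add_right, hs, hs,
      add_comm (⟪f, P y x f'⟫_ℝ)]

/-- Extension by zero. -/
noncomputable def ext0 (f : I0 V → ℝ) (n : V → ℤ) : ℝ := if h : tot n = 0 then f ⟨n, h⟩ else 0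

theorem ext0_in (f : I0 V → ℝ) (n : I0 V) : ext0 f n.1 = f n := dif_pos n.2

theorem ext0_out (f : I0 V → ℝ) {n : V → ℤ} (h : tot n ≠ 0) : ext0 f n = 0 := dif_neg h

theorem tsum_ext {F : (V → ℤ) → ℝ} (h : ∀ n, tot n ≠ 0 → F n = 0) :
    ∑' n, F n = ∑' i : I0 V, F i.1 := by
  refine (Subtype.val_injective.tsum_eq ?_).symm
  intro n hn
  by_contra hcon
  apply hn
  apply h
  intro h0
  exact hcon ⟨⟨n, h0⟩, rfl⟩

theorem summable_ext {F : (V → ℤ) → ℝ} (h : ∀ n, tot n ≠ 0 → F n = 0) :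
    (Summable fun i : I0 V => F i.1) ↔ Summable F := by
  refine Subtype.val_injective.summable_iff ?_
  intro n hn
  apply h
  intro h0
  exact hn ⟨⟨n, h0⟩, rfl⟩

theorem pot_eq (U : ℝ) (n : V → ℤ) : pot (U • (1 : Matrix V V ℝ)) 0 n = U * Pool.Agent.N657.QR.sq n := by
  unfold pot Pool.Agent.N657.QR.sq
  rw [Finset.mul_sum]
  refine Finset.sum_congr rfl fun x _ => ?_
  rw [Finset.sum_eq_single x]
  · rw [Matrix.smul_apply, Matrix.one_apply_eq, Pi.zero_apply, sub_zero, smul_eq_mul]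
    ring
  · intro y _ hy
    rw [Matrix.smul_apply, Matrix.one_apply_ne' hy, smul_zero, zero_mul]
  · intro h
    exact absurd (Finset.mem_univ _) h

theorem sq_nn (n : V → ℤ) : 0 ≤ Pool.Agent.N657.QR.sq n := Finset.sum_nonneg fun x _ => sq_nonneg _

theorem le_sq (n : V → ℤ) (x : V) : ((n x : ℝ)) ^ 2 ≤ Pool.Agent.N657.QR.sq n :=
  Finset.single_le_sum (f := fun x => ((n x : ℝ)) ^ 2) (fun x _ => sq_nonneg _)
    (Finset.mem_univ x)

theorem fin_sub (B : ℝ) : {n : V → ℤ | Pool.Agent.N657.QR.sq n ≤ B}.Finite := by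
  obtain ⟨N, hN⟩ := exists_nat_ge B
  refine (Set.finite_Icc (fun _ : V => -(N : ℤ)) (fun _ => (N : ℤ))).subset ?_
  intro n hn
  have h1 : ∀ x, |n x| ≤ (N : ℤ) := by
    intro x
    have h2 : ((n x : ℝ)) ^ 2 ≤ N := le_trans (le_trans (le_sq n x) hn) hN
    have h3 : (n x) ^ 2 ≤ (N : ℤ) := by exact_mod_cast h2
    have h4 : |n x| ≤ (n x) ^ 2 := by
      rw [← sq_abs]
      rcases (abs_nonneg (n x)).eq_or_lt with h5 | h5
      · rw [← h5]; norm_num
      · nlinarith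
    exact h4.trans h3
  exact ⟨fun x => (abs_le.1 (h1 x)).1, fun x => (abs_le.1 (h1 x)).2⟩

end Conc

theorem nnw_nonneg {d L : ℕ} [NeZero L] (x y : Fin d → ZMod L) : 0 ≤ nnw 1 x y := by
  unfold nnw
  refine Finset.sum_nonneg fun i _ => ?_
  split_ifs
  · exact zero_le_one
  · exact le_rfl

/-- The energy of an eigenfunction. -/
theorem FF_eig (hB : S_BAS) {d L : ℕ} [NeZero L] {U E : ℝ}
    {χ : ((Fin d → ZMod L) → ℤ) → ℝ} (hFE : FE χ)
    (h : ∀ n, pot (U • (1 : Matrix (Fin d → ZMod L) (Fin d → ZMod L) ℝ)) 0 n * χ n -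
      (∑ x, ∑ y, nnw 1 x y * (χ (hp x y n) + χ (hp y x n))) / 2 = E * χ n) :
    FF (U • (1 : Matrix (Fin d → ZMod L) (Fin d → ZMod L) ℝ)) (nnw 1) 0 χ = E * nr χ := by
  have h1 : ∀ n, pot (U • (1 : Matrix (Fin d → ZMod L) (Fin d → ZMod L) ℝ)) 0 n * χ n ^ 2 =
      E * χ n ^ 2 + ∑ x, ∑ y, nnw 1 x y / 2 * (χ (hp x y n) * χ n + χ (hp y x n) * χ n) := by
    intro n
    have h2 := h n
    have h3 : ∑ x, ∑ y, nnw 1 x y / 2 * (χ (hp x y n) * χ n + χ (hp y x n) * χ n) =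
        (∑ x, ∑ y, nnw 1 x y * (χ (hp x y n) + χ (hp y x n))) / 2 * χ n := by
      rw [Finset.sum_div, Finset.sum_mul]
      refine Finset.sum_congr rfl fun x _ => ?_
      rw [Finset.sum_div, Finset.sum_mul]
      refine Finset.sum_congr rfl fun y _ => ?_
      ring
    rw [h3]
    linear_combination χ n * h2
  have h4 : HasSum (fun n => E * χ n ^ 2 +
      ∑ x, ∑ y, nnw 1 x y / 2 * (χ (hp x y n) * χ n + χ (hp y x n) * χ n))
      (E * nr χ + ∑ x, ∑ y, nnw 1 x y / 2 * (cr x y χ + cr y x χ)) := by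
    refine (hFE.1.hasSum.mul_left E).add (hasSum_sum fun x _ => hasSum_sum fun y _ => ?_)
    exact (((hB.crsum x y χ hFE.1).hasSum).add ((hB.crsum y x χ hFE.1).hasSum)).mul_left _
  have h5 : po (U • (1 : Matrix (Fin d → ZMod L) (Fin d → ZMod L) ℝ)) 0 χ =
      E * nr χ + ∑ x, ∑ y, nnw 1 x y / 2 * (cr x y χ + cr y x χ) := by
    unfold po
    rw [← h4.tsum_eq]
    exact tsum_congr h1
  have h6 : ∑ x, ∑ y, nnw 1 x y / 2 * (cr x y χ + cr y x χ) =
      ∑ x : Fin d → ZMod L, ∑ y, nnw 1 x y * cr x y χ := by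
    refine Finset.sum_congr rfl fun x _ => Finset.sum_congr rfl fun y _ => ?_
    rw [hB.crcomm y x χ]
    ring
  unfold FF
  rw [h5, h6]
  ring

theorem main (hB : S_BAS) (hLB : Pool.Agent.N657.QR.S_LB) : Pool.Agent.N657.QL.S_CPL := by
  intro d L _ U hU
  obtain ⟨T, hT, hTs⟩ := hop (V := Fin d → ZMod L) (nnw 1)
  have hM : 0 < ‖T‖ + 1 := by positivity
  have hG : ∀ n : I0 (Fin d → ZMod L), ‖T‖ + 1 ≤ U * Pool.Agent.N657.QR.sq n.1 + (‖T‖ + 1) := fun n => by
    have := mul_nonneg hU.le (sq_nn n.1)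
    linarith
  have hG0 : ∀ n : I0 (Fin d → ZMod L), 0 < U * Pool.Agent.N657.QR.sq n.1 + (‖T‖ + 1) := fun n => hM.trans_le (hG n)
  have hg0 : ∀ n : I0 (Fin d → ZMod L), 0 < 1 / Real.sqrt (U * Pool.Agent.N657.QR.sq n.1 + (‖T‖ + 1)) := fun n =>
    one_div_pos.2 (Real.sqrt_pos.2 (hG0 n))
  obtain ⟨ι, b, ν, hb⟩ := resolvent (I := I0 (Fin d → ZMod L))
    (fun n => 1 / Real.sqrt (U * Pool.Agent.N657.QR.sq n.1 + (‖T‖ + 1))) (1 / Real.sqrt (‖T‖ + 1)) hg0
    (by positivity)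
    (fun n => one_div_le_one_div_of_le (Real.sqrt_pos.2 hM) (Real.sqrt_le_sqrt (hG n)))
    (by
      intro ε hε
      refine Set.Finite.subset (Set.Finite.preimage
        (Set.injOn_of_injective Subtype.val_injective) (fin_sub (1 / (U * ε ^ 2)))) ?_
      intro n hn
      show Pool.Agent.N657.QR.sq n.1 ≤ 1 / (U * ε ^ 2)
      have hn' : ε < |1 / Real.sqrt (U * Pool.Agent.N657.QR.sq n.1 + (‖T‖ + 1))| := hn
      rw [abs_of_pos (hg0 n), lt_div_iff₀ (Real.sqrt_pos.2 (hG0 n))] at hn'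
      have h1 : ε ^ 2 * (U * Pool.Agent.N657.QR.sq n.1 + (‖T‖ + 1)) < 1 := by
        have h2 : (ε * Real.sqrt (U * Pool.Agent.N657.QR.sq n.1 + (‖T‖ + 1))) ^ 2 < 1 := by
          have h3 : 0 ≤ ε * Real.sqrt (U * Pool.Agent.N657.QR.sq n.1 + (‖T‖ + 1)) := by positivity
          nlinarith
        rwa [mul_pow, Real.sq_sqrt (hG0 n).le] at h2
      rw [le_div_iff₀ (by positivity)]
      nlinarith [mul_pos (pow_pos hε 2) hM]) T hTs
    (by
      have h1 : Real.sqrt (‖T‖ + 1) ^ 2 = ‖T‖ + 1 := Real.sq_sqrt hM.le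
      have h2 : 0 < Real.sqrt (‖T‖ + 1) := Real.sqrt_pos.2 hM
      have h3 : 1 / Real.sqrt (‖T‖ + 1) * (‖T‖ * (1 / Real.sqrt (‖T‖ + 1))) =
          ‖T‖ / Real.sqrt (‖T‖ + 1) ^ 2 := by
        field_simp
      rw [h3, h1, div_lt_one hM]
      linarith)
  have hbf : ∀ j, Summable (fun n : I0 (Fin d → ZMod L) =>
      (U * Pool.Agent.N657.QR.sq n.1 + (‖T‖ + 1)) * (b j : I0 (Fin d → ZMod L) → ℝ) n ^ 2) := by
    intro j
    refine (hb j).1.congr fun n => ?_
    rw [div_pow, div_pow, one_pow, Real.sq_sqrt (hG0 n).le]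
    field_simp
  have hbe : ∀ j (n : I0 (Fin d → ZMod L)),
      (U * Pool.Agent.N657.QR.sq n.1 + (‖T‖ + 1)) * (b j : I0 (Fin d → ZMod L) → ℝ) n -
        (T (b j) : I0 (Fin d → ZMod L) → ℝ) n = ν j * (b j : I0 (Fin d → ZMod L) → ℝ) n := by
    intro j n
    rw [← (hb j).2 n, div_pow, one_pow, Real.sq_sqrt (hG0 n).le]
    field_simp
  have hFE : ∀ j, FE (ext0 (b j : I0 (Fin d → ZMod L) → ℝ)) := by
    intro j
    constructor
    · rw [← summable_ext (fun n hn => by rw [ext0_out _ hn, zero_pow two_ne_zero])]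
      simp only [ext0_in]
      exact sm (b j)
    · rw [← summable_ext (fun n hn => by rw [ext0_out _ hn, zero_pow two_ne_zero, mul_zero])]
      simp only [ext0_in]
      refine Summable.of_nonneg_of_le (fun n => mul_nonneg (sq_nn _) (sq_nonneg _)) (fun n => ?_)
        ((hbf j).mul_left (1 / U))
      have h1 : Pool.Agent.N657.QR.sq n.1 ≤ 1 / U * (U * Pool.Agent.N657.QR.sq n.1 + (‖T‖ + 1)) := by
        have h2 : 1 / U * (U * Pool.Agent.N657.QR.sq n.1 + (‖T‖ + 1)) = Pool.Agent.N657.QR.sq n.1 + 1 / U * (‖T‖ + 1) := by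
          field_simp
        rw [h2]
        have h3 : 0 ≤ 1 / U * (‖T‖ + 1) := by positivity
        linarith
      rw [← mul_assoc]
      exact mul_le_mul_of_nonneg_right h1 (sq_nonneg _)
  have hSec : ∀ j, Sec 0 (ext0 (b j : I0 (Fin d → ZMod L) → ℝ)) := by
    intro j n hn
    by_contra h
    exact hn (ext0_out _ h)
  have heq : ∀ j n, pot (U • (1 : Matrix (Fin d → ZMod L) (Fin d → ZMod L) ℝ)) 0 n *
      ext0 (b j : I0 (Fin d → ZMod L) → ℝ) n -
      (∑ x, ∑ y, nnw 1 x y * (ext0 (b j : I0 (Fin d → ZMod L) → ℝ) (hp x y n) +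
        ext0 (b j : I0 (Fin d → ZMod L) → ℝ) (hp y x n))) / 2 =
      (ν j - (‖T‖ + 1)) * ext0 (b j : I0 (Fin d → ZMod L) → ℝ) n := by
    intro j n
    by_cases hn : tot n = 0
    · have h1 := hbe j ⟨n, hn⟩
      rw [hT] at h1
      have h2 : ext0 (b j : I0 (Fin d → ZMod L) → ℝ) n =
          (b j : I0 (Fin d → ZMod L) → ℝ) ⟨n, hn⟩ := ext0_in _ ⟨n, hn⟩
      have h3 : ∀ x y, ext0 (b j : I0 (Fin d → ZMod L) → ℝ) (hp x y n) =
          (b j : I0 (Fin d → ZMod L) → ℝ) (hpE x y ⟨n, hn⟩) :=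
        fun x y => ext0_in _ (hpE x y ⟨n, hn⟩)
      simp only [h2, h3]
      rw [pot_eq]
      linear_combination h1
    · have h2 : ext0 (b j : I0 (Fin d → ZMod L) → ℝ) n = 0 := ext0_out _ hn
      have h3 : ∀ x y, ext0 (b j : I0 (Fin d → ZMod L) → ℝ) (hp x y n) = 0 :=
        fun x y => ext0_out _ (by rw [tot_hp]; exact hn)
      simp only [h2, h3]
      simp
  have hsc : ∀ i j, ∑' n, ext0 (b i : I0 (Fin d → ZMod L) → ℝ) n *
      ext0 (b j : I0 (Fin d → ZMod L) → ℝ) n = ⟪b i, b j⟫_ℝ := by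
    intro i j
    rw [tsum_ext (fun n hn => by rw [ext0_out _ hn, zero_mul]), inn]
    simp only [ext0_in]
  have hnr : ∀ j, nr (ext0 (b j : I0 (Fin d → ZMod L) → ℝ)) = 1 := by
    intro j
    unfold nr
    have h1 := hsc j j
    rw [real_inner_self_eq_norm_sq, b.orthonormal.1 j, one_pow] at h1
    rw [← h1]
    exact tsum_congr fun n => pow_two _
  refine ⟨ι, fun j => ν j - (‖T‖ + 1) -
    en (U • (1 : Matrix (Fin d → ZMod L) (Fin d → ZMod L) ℝ)) (nnw 1) 0 0,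
    fun j => ext0 (b j : I0 (Fin d → ZMod L) → ℝ), ?_, ?_, ?_, ?_⟩
  · intro j
    refine ⟨?_, hFE j, hSec j, fun n => ?_⟩
    · have hps : (U • (1 : Matrix (Fin d → ZMod L) (Fin d → ZMod L) ℝ)).PosSemidef :=
        Matrix.PosSemidef.one.smul hU.le
      have h1 := hLB (U • (1 : Matrix (Fin d → ZMod L) (Fin d → ZMod L) ℝ)) (nnw 1) 0 0
        (ext0 (b j : I0 (Fin d → ZMod L) → ℝ)) hps nnw_nonneg (hFE j) (hSec j)
      rw [FF_eig hB (hFE j) (heq j), hnr, mul_one, mul_one] at h1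
      linarith
    · rw [heq j n]
      ring
  · intro j
    rw [hsc, real_inner_self_eq_norm_sq, b.orthonormal.1 j, one_pow]
  · intro i j hij
    rw [hsc]
    exact b.orthonormal.2 hij
  · intro φ hφ hφ0
    have hout : ∀ n, tot n ≠ 0 → φ n = 0 := by
      intro n hn
      by_contra h
      exact hn (hφ0 n h)
    have hφr : Summable (fun n : I0 (Fin d → ZMod L) => φ n.1 ^ 2) :=
      (summable_ext (F := fun n => φ n ^ 2)
        (fun n hn => by rw [hout n hn, zero_pow two_ne_zero])).2 hφ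
    have hmem := (mem_iff (fun n : I0 (Fin d → ZMod L) => φ n.1)).2 hφr
    have h1 := b.hasSum_inner_mul_inner ⟨fun n : I0 (Fin d → ZMod L) => φ n.1, hmem⟩
      ⟨fun n : I0 (Fin d → ZMod L) => φ n.1, hmem⟩
    have h2 : ∀ j, ∑' n, ext0 (b j : I0 (Fin d → ZMod L) → ℝ) n * φ n =
        ⟪b j, (⟨fun n : I0 (Fin d → ZMod L) => φ n.1, hmem⟩ : HI (I0 (Fin d → ZMod L)))⟫_ℝ := by
      intro j
      rw [tsum_ext (fun n hn => by rw [ext0_out _ hn, zero_mul]), inn]
      simp only [ext0_in]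
    have h3 : nr φ = ⟪(⟨fun n : I0 (Fin d → ZMod L) => φ n.1, hmem⟩ : HI (I0 (Fin d → ZMod L))),
        (⟨fun n : I0 (Fin d → ZMod L) => φ n.1, hmem⟩ : HI (I0 (Fin d → ZMod L)))⟫_ℝ := by
      unfold nr
      rw [tsum_ext (fun n hn => by rw [hout n hn, zero_pow two_ne_zero]), inn]
      exact tsum_congr fun n => pow_two _
    rw [h3]
    have h4 : (fun j => (∑' n, ext0 (b j : I0 (Fin d → ZMod L) → ℝ) n * φ n) ^ 2) =
        fun j => ⟪(⟨fun n : I0 (Fin d → ZMod L) => φ n.1, hmem⟩ :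
          HI (I0 (Fin d → ZMod L))), b j⟫_ℝ *
          ⟪b j, (⟨fun n : I0 (Fin d → ZMod L) => φ n.1, hmem⟩ :
            HI (I0 (Fin d → ZMod L)))⟫_ℝ := by
      funext j
      rw [h2, pow_two, real_inner_comm (b j)]
    rw [h4]
    exact h1

end Pool.Agent.N691.QLC
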