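import Pool.Agent.N841.WS.Stm

/-!
# Project WS (helper841), leaf TB: omega-bounded groups are totally bounded
-/

set_option autoImplicit false

open Topology Filter Set

namespace Pool.Agent.N691.WS

open Pool.Agent.N841.WS

/-- omega-bounded groups are totally bounded -/
theorem t_TB : S_TB := by
  intro G _ _ _ hG U hU
  by_contra hcon
  push Not at hcon
  obtain ⟨x, -, hx⟩ := exists_seq_of_forall_finset_exists (fun _ : G => True)
    (fun a b => b - a ∉ U) (fun s _ => by
      obtain ⟨g, hg⟩ := hcon s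
      exact ⟨g, trivial, hg⟩)
  have hK := hG (range x) (countable_range x)
  obtain ⟨y, -, hy⟩ := hK.exists_mapClusterPt (f := atTop) (u := x) (by
    rw [le_principal_iff, mem_map]
    exact Filter.Eventually.of_forall fun n => subset_closure (mem_range_self n))
  have hc : Tendsto (fun p : G × G => (p.1 - y) - (p.2 - y)) (𝓝 y ×ˢ 𝓝 y) (𝓝 0) := by
    have h1 : Continuous fun p : G × G => (p.1 - y) - (p.2 - y) := by fun_prop
    have h2 := h1.tendsto (y, y)
    rw [nhds_prod_eq] at h2
    simpa using h2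
  have h3 := hc hU
  rw [mem_map, mem_prod_iff] at h3
  obtain ⟨A, hA, B, hB, hAB⟩ := h3
  rw [mapClusterPt_iff_frequently] at hy
  have h4 := hy (A ∩ B) (inter_mem hA hB)
  obtain ⟨m, hm⟩ := h4.exists
  obtain ⟨n, hn, hmn⟩ := (h4.and_eventually (eventually_gt_atTop m)).exists
  have h5 : (x n, x m) ∈ A ×ˢ B := ⟨hn.1, hm.2⟩
  have h6 := hAB h5
  have h7 : (x n - y) - (x m - y) = x n - x m := by abel
  rw [mem_preimage] at h6
  rw [h7] at h6
  exact hx m n hmn h6

end Pool.Agent.N691.WS
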